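import Pool.Agent.H47.MB.GenGood
import Pool.Agent.H48.MB.RowG

set_option linter.style.longLine false

/-! The statements of the hand-in in the names of the helper files. -/

namespace Pool.Agent.H47.MB.Gen

open Finset Metric MeasureTheory
open scoped ENNReal
open Pool.Agent.H51.IR Pool.Agent.H98.MB Pool.Agent.H47.MB

variable {a c : ℂ} {n : ℕ} {M : ℝ}

theorem isC_iff : IsC a n ↔ 1 ≤ n ∧ crit a n = 0 ∧ ∀ j, 1 ≤ j → j < n → crit a j ≠ 0 := by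
  constructor
  · rintro ⟨h1, h2, h3, -⟩
    exact ⟨h1, h2, fun j hj hjn => h3 j (Finset.mem_Ico.2 ⟨hj, hjn⟩)⟩
  · rintro ⟨h1, h2, h3⟩
    exact ⟨h1, h2, fun j hj => h3 j (Finset.mem_Ico.1 hj).1 (Finset.mem_Ico.1 hj).2,
      Pool.Agent.H48.MB.Dp_ne_zero h1 h2⟩

theorem Sm.contraction (h : Sm c n M) : ∃ ρ : ℝ, 0 < ρ ∧ ∀ w w' : ℂ, ‖w‖ ≤ ρ → ‖w'‖ ≤ ρ →
    ‖(quad c)^[n] w‖ < ρ ∧ ‖(quad c)^[n] w - (quad c)^[n] w'‖ ≤ 1 / 9 * ‖w - w'‖ :=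
  ⟨Rd c n M, h.Rd_pos, fun _ _ hw hw' => ⟨h.map hw, h.lip hw hw'⟩⟩

/-- for almost every parameter the good close returns tend to infinity -/
theorem ae_good : ∀ᵐ c : ℂ, ∀ K : ℝ, {n | GoodTime c n ∧ ‖A c n‖ * ‖crit c n‖ ≤ K}.Finite :=
  Pool.Agent.H47.MB.ae_finite

end Pool.Agent.H47.MB.Gen
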