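import Pool.Agent.H98.MB.Defs

set_option linter.style.longLine false

/-! MB2, non-emptiness rows: shared definitions. -/

namespace Pool.Agent.H47.MB

open Finset
open Pool.Agent.H51.IR Pool.Agent.H98.MB

/-- a centre: `0` has exact period `n` (all `crit c j ≠ 0` for `1 ≤ j < n`), with small distortion -/
structure Centre (c : ℂ) (n : ℕ) : Prop where
  one_le : 1 ≤ n
  ne : ∀ j ∈ Ico 1 n, crit c j ≠ 0
  zero : crit c n = 0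
  dp : Dp c n ≠ 0
  small : 10 ^ 4 * (T c n ^ 2 * ∑ j ∈ Ico 1 n, ‖A c j‖ / ‖crit c j‖) ≤ ‖Dp c n‖ ^ 2

/-- derivative products along the orbit of `x` -/
noncomputable def B (c' x : ℂ) (i : ℕ) : ℂ := ∏ l ∈ Ico 1 i, 2 * (quad c')^[l] x

/-- the orbit of `x` under `quad c'` follows the critical orbit of the centre `c` for time `n` -/
structure Near (c : ℂ) (n : ℕ) (c' x : ℂ) : Prop where
  orbit : ∀ j ∈ Ico 1 n, ‖(quad c')^[j] x - crit c j‖ ≤ 0.005 * ‖crit c j‖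
  prod : ∀ j ∈ Icc 1 n, ‖B c' x j - A c j‖ * (‖A c n‖ * T c n) ≤ 0.005 * ‖A c j‖ * ‖Dp c n‖
  value : ‖A c n * (quad c')^[n] x - (A c n * Dp c n * (c' - c) + (A c n * x) ^ 2)‖ ≤
    0.005 * (‖A c n * Dp c n * (c' - c)‖ + ‖A c n * x‖ ^ 2)

/-- one step of the construction of nested centres -/
structure Step (c : ℂ) (n : ℕ) (c' : ℂ) (n' : ℕ) : Prop where
  mul : ∃ q, 4 ≤ q ∧ n' = q * n
  dist : ‖A c n‖ * ‖Dp c n‖ * ‖c' - c‖ ≤ 2.2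
  scale : 10 * (‖A c n‖ * ‖Dp c n‖) ≤ ‖A c' n'‖ * ‖Dp c' n'‖
  mono : ‖A c n‖ ≤ ‖A c' n'‖
  ret : ∀ m, ‖A c n‖ * ‖crit c' (m * n)‖ ≤ 2.3

/-- the class of the theorem -/
def CloseReturns (K : ℝ) (c : ℂ) (n : ℕ) : Prop :=
  2 ≤ n ∧ (∀ j ∈ Ico 1 n, crit c j ≠ 0) ∧ Dp c n ≠ 0 ∧ ‖A c n‖ * ‖crit c n‖ ≤ K ∧
    K * (T c n * ∑ j ∈ Ico 1 n, ‖A c j‖ * T c j / ‖crit c j‖) ≤ ‖Dp c n‖ ^ 2 / 100 ∧
    ∑ j ∈ Ico 1 n, ‖A c j‖ / ‖crit c j‖ ≤ ‖A c n‖ ^ 2 / 100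

end Pool.Agent.H47.MB
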