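import Pool.Agent.H48.MB.Dyn

set_option linter.style.longLine false

/-! A parameter is in the small disc of at most one time `n`. -/

namespace Pool.Agent.H47.MB

open Finset Pool.Agent.H51.IR Pool.Agent.H48.MB

/-- `0` is close to being periodic of period `n`, with small distortion -/
structure Sm (c : ℂ) (n : ℕ) : Prop where
  one_le : 1 ≤ n
  ne : ∀ j, 1 ≤ j → j < n → z c j ≠ 0
  sum : ∑ j ∈ Ico 1 n, ‖A c j‖ / ‖z c j‖ ≤ 113 / 10000 * ‖A c n‖ ^ 2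
  small : ‖z c n‖ * ‖A c n‖ ≤ 13 / 100

variable {c : ℂ} {n : ℕ}

theorem Sm.pos (h : Sm c n) {j : ℕ} (hj : j ≤ n) : 0 < ‖A c j‖ := norm_pos_iff.2 (A_ne c h.ne hj)

/-- the orbit of a point of the disc of radius `0.45 / |A_n|` -/
theorem Sm.orbit (h : Sm c n) {x : ℂ} (hx : ‖x‖ ≤ 45 / 100 / ‖A c n‖) {j : ℕ} (hj : 1 ≤ j) (hjn : j ≤ n) :
    ‖(quad c)^[j] x - z c j‖ ≤ ‖A c j‖ * (2030 / 10000 / ‖A c n‖ ^ 2) := by
  have ha := h.pos le_rfl
  have hx' : ‖x‖ * ‖A c n‖ ≤ 45 / 100 := (le_div_iff₀ ha).1 hx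
  have hu : ‖x ^ 2‖ * ‖A c n‖ ^ 2 ≤ 2025 / 10000 := by
    rw [norm_pow, ← mul_pow]
    nlinarith [mul_nonneg (norm_nonneg x) ha.le]
  have h1 := orbit_pert_small h.ne h.sum hu j hj hjn
  obtain ⟨m, rfl⟩ := Nat.exists_eq_add_of_le' hj
  rw [Nat.add_sub_cancel] at h1
  have e : quad c x = c + x ^ 2 := by unfold quad; ring
  rw [Function.iterate_succ_apply, e]
  refine h1.trans ?_
  have h2 : ‖x ^ 2‖ ≤ 2025 / 10000 / ‖A c n‖ ^ 2 := (le_div_iff₀ (by positivity)).2 hu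
  have h3 : 2025 / 10000 / ‖A c n‖ ^ 2 * (10023 / 10000) ≤ 2030 / 10000 / ‖A c n‖ ^ 2 := by
    rw [div_mul_eq_mul_div]
    gcongr
    norm_num
  calc ‖A c (m + 1)‖ * ‖x ^ 2‖ * (10023 / 10000)
      ≤ ‖A c (m + 1)‖ * (2025 / 10000 / ‖A c n‖ ^ 2) * (10023 / 10000) := by gcongr
    _ = ‖A c (m + 1)‖ * (2025 / 10000 / ‖A c n‖ ^ 2 * (10023 / 10000)) := by ring
    _ ≤ _ := mul_le_mul_of_nonneg_left h3 (norm_nonneg _)

theorem Sm.term (h : Sm c n) {j : ℕ} (hj : 1 ≤ j) (hjn : j < n) :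
    ‖A c j‖ ≤ 113 / 10000 * ‖A c n‖ ^ 2 * ‖z c j‖ := by
  have h1 : ‖A c j‖ / ‖z c j‖ ≤ 113 / 10000 * ‖A c n‖ ^ 2 :=
    (Finset.single_le_sum (f := fun j => ‖A c j‖ / ‖z c j‖) (fun i _ => by positivity)
      (Finset.mem_Ico.2 ⟨hj, hjn⟩)).trans h.sum
  rwa [div_le_iff₀ (norm_pos_iff.2 (h.ne j hj hjn))] at h1

theorem Sm.orbit_rel (h : Sm c n) {x : ℂ} (hx : ‖x‖ ≤ 45 / 100 / ‖A c n‖) {j : ℕ} (hj : 1 ≤ j) (hjn : j < n) :
    ‖(quad c)^[j] x - z c j‖ ≤ 24 / 10000 * ‖z c j‖ := by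
  have ha := h.pos le_rfl
  refine (h.orbit hx hj hjn.le).trans ?_
  calc ‖A c j‖ * (2030 / 10000 / ‖A c n‖ ^ 2)
      ≤ 113 / 10000 * ‖A c n‖ ^ 2 * ‖z c j‖ * (2030 / 10000 / ‖A c n‖ ^ 2) := by
        gcongr
        exact h.term hj hjn
    _ = 113 / 10000 * (2030 / 10000) * ‖z c j‖ := by field_simp
    _ ≤ _ := by
      gcongr
      norm_num

/-- products along the orbit of a point of the disc -/
theorem Sm.prod (h : Sm c n) {x : ℂ} (hx : ‖x‖ ≤ 45 / 100 / ‖A c n‖) {r : ℕ} (hrn : r ≤ n) :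
    ‖∏ i ∈ Ico 1 r, (2 * (quad c)^[i] x)‖ ≤ 10026 / 10000 * ‖A c r‖ := by
  have ha := h.pos le_rfl
  have hsum : ∑ i ∈ Ico 1 r, ‖(quad c)^[i] x - z c i‖ / ‖z c i‖ ≤ 23 / 10000 := by
    calc _ ≤ ∑ i ∈ Ico 1 r, (‖A c i‖ / ‖z c i‖) * (2030 / 10000 / ‖A c n‖ ^ 2) := by
          refine sum_le_sum fun i hi => ?_
          rw [mem_Ico] at hi
          have g1 := h.orbit hx hi.1 (by omega)
          rw [div_mul_eq_mul_div]
          gcongr
      _ ≤ ∑ i ∈ Ico 1 n, (‖A c i‖ / ‖z c i‖) * (2030 / 10000 / ‖A c n‖ ^ 2) :=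
          sum_le_sum_of_subset_of_nonneg (Ico_subset_Ico_right hrn) fun i _ _ => by positivity
      _ = (∑ i ∈ Ico 1 n, ‖A c i‖ / ‖z c i‖) * (2030 / 10000 / ‖A c n‖ ^ 2) := by rw [sum_mul]
      _ ≤ 113 / 10000 * ‖A c n‖ ^ 2 * (2030 / 10000 / ‖A c n‖ ^ 2) := by
          gcongr
          exact h.sum
      _ = 113 / 10000 * (2030 / 10000) := by field_simp
      _ ≤ 23 / 10000 := by norm_num
  have hp := prod_ratio (s := Ico 1 r) (x := z c) (y := fun i => (quad c)^[i] x)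
    (fun i hi => by rw [mem_Ico] at hi; exact h.ne i hi.1 (by omega)) hsum
  change ‖_ - A c r‖ ≤ ‖A c r‖ * _ at hp
  have h6 := norm_le_norm_add_norm_sub' (∏ i ∈ Ico 1 r, (2 * (quad c)^[i] x)) (A c r)
  have h7 := exp_small
  have h8 : Real.exp (23 / 10000) - 1 ≤ 26 / 10000 := by
    norm_num at h7 ⊢
    linarith
  have h9 := mul_le_mul_of_nonneg_left h8 (norm_nonneg (A c r))
  linarith

theorem Sm.ball (h : Sm c n) (k : ℕ) : ‖z c (k * n)‖ ≤ 45 / 100 / ‖A c n‖ := by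
  have ha := h.pos le_rfl
  induction k with
  | zero =>
    rw [zero_mul, z_zero, norm_zero]
    positivity
  | succ k ih =>
    have e : z c ((k + 1) * n) = (quad c)^[n] (z c (k * n)) := by
      unfold z
      rw [← Function.iterate_add_apply]
      congr 1
      ring_nf
    rw [e]
    exact (dyn_map h.ne h.one_le h.sum h.small ih).le

theorem A_add {k r : ℕ} (hk : 1 ≤ k) (hr : 1 ≤ r) :
    A c (k + r) = A c k * (2 * z c k) * ∏ i ∈ Ico 1 r, (2 * (quad c)^[i] (z c k)) := by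
  obtain ⟨m, rfl⟩ := Nat.exists_eq_add_of_le' hr
  induction m with
  | zero => simp [A_succ c hk]
  | succ m ih =>
    rw [← add_assoc, A_succ c (by omega), ih (by omega),
      prod_Ico_succ_top (a := 1) (b := m + 1) (by omega)]
    have e : z c (k + (m + 1)) = (quad c)^[m + 1] (z c k) := by
      unfold z
      rw [add_comm k, Function.iterate_add_apply]
    rw [e]
    ring

theorem Sm.A_add_le (h : Sm c n) {k : ℕ} (hk : 1 ≤ k) {r : ℕ} (hr : 1 ≤ r) (hrn : r ≤ n) :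
    ‖A c (k * n + r)‖ * ‖A c n‖ ≤ 91 / 100 * (‖A c (k * n)‖ * ‖A c r‖) := by
  have ha := h.pos le_rfl
  have hx := h.ball k
  have hx' : ‖z c (k * n)‖ * ‖A c n‖ ≤ 45 / 100 := (le_div_iff₀ ha).1 hx
  have hp := h.prod hx hrn
  have hkn : 1 ≤ k * n := Nat.mul_pos hk h.one_le
  rw [A_add hkn hr, norm_mul, norm_mul, norm_mul]
  have n2 : ‖(2 : ℂ)‖ = 2 := by simp
  rw [n2]
  calc ‖A c (k * n)‖ * (2 * ‖z c (k * n)‖) * ‖∏ i ∈ Ico 1 r, (2 * (quad c)^[i] (z c (k * n)))‖ * ‖A c n‖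
      ≤ ‖A c (k * n)‖ * (2 * ‖z c (k * n)‖) * (10026 / 10000 * ‖A c r‖) * ‖A c n‖ := by gcongr
    _ = ‖A c (k * n)‖ * (‖z c (k * n)‖ * ‖A c n‖) * (2 * (10026 / 10000)) * ‖A c r‖ := by ring
    _ ≤ ‖A c (k * n)‖ * (45 / 100) * (2 * (10026 / 10000)) * ‖A c r‖ := by gcongr
    _ ≤ 91 / 100 * (‖A c (k * n)‖ * ‖A c r‖) := by
      have : 0 ≤ ‖A c (k * n)‖ * ‖A c r‖ := by positivity
      nlinarith

theorem Sm.A_mul_le (h : Sm c n) {k : ℕ} (hk : 1 ≤ k) : ‖A c (k * n)‖ ≤ ‖A c n‖ := by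
  have ha := h.pos le_rfl
  induction k, hk using Nat.le_induction with
  | base => rw [one_mul]
  | succ k hk ih =>
    have h1 := h.A_add_le hk h.one_le le_rfl
    have h2 : ‖A c (k * n + n)‖ ≤ 91 / 100 * ‖A c (k * n)‖ := by
      have h3 : 91 / 100 * (‖A c (k * n)‖ * ‖A c n‖) = 91 / 100 * ‖A c (k * n)‖ * ‖A c n‖ := by ring
      rw [h3] at h1
      exact le_of_mul_le_mul_right h1 ha
    rw [add_one_mul]
    have := norm_nonneg (A c (k * n))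
    linarith

/-- a parameter is in the small disc of at most one time -/
theorem Sm.not_lt {n' : ℕ} (h : Sm c n) (h' : Sm c n') : ¬ n < n' := by
  intro hlt
  have ha := h.pos le_rfl
  have ha' := h'.pos le_rfl
  have h1 := h'.term h.one_le hlt
  have h2 : ‖A c n‖ ^ 2 ≤ 15 / 10000 * ‖A c n'‖ ^ 2 := by
    have h3 := mul_le_mul_of_nonneg_right h1 ha.le
    have h4 := h.small
    have h5 : 113 / 10000 * ‖A c n'‖ ^ 2 * ‖z c n‖ * ‖A c n‖ =
        113 / 10000 * ‖A c n'‖ ^ 2 * (‖z c n‖ * ‖A c n‖) := by ring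
    have h6 : 113 / 10000 * ‖A c n'‖ ^ 2 * (‖z c n‖ * ‖A c n‖) ≤
        113 / 10000 * ‖A c n'‖ ^ 2 * (13 / 100) := by gcongr
    nlinarith [sq_nonneg ‖A c n'‖]
  have hn := h.one_le
  have hk : 1 ≤ n' / n := (Nat.one_le_div_iff (by omega)).2 hlt.le
  have hdm : n' / n * n + n' % n = n' := by rw [mul_comm]; exact Nat.div_add_mod n' n
  have hrn : n' % n < n := Nat.mod_lt _ (by omega)
  rcases Nat.eq_zero_or_pos (n' % n) with hr | hr
  · rw [hr, add_zero] at hdm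
    have h3 := h.A_mul_le hk
    rw [hdm] at h3
    have h4 : ‖A c n'‖ ^ 2 ≤ ‖A c n‖ ^ 2 := by gcongr
    nlinarith [sq_pos_of_pos ha']
  · have h3 := h.A_add_le hk hr hrn.le
    rw [hdm] at h3
    have h4 : ‖A c n'‖ ≤ 91 / 100 * ‖A c (n' % n)‖ := by
      have h5 : 91 / 100 * (‖A c (n' / n * n)‖ * ‖A c (n' % n)‖) ≤
          91 / 100 * (‖A c n‖ * ‖A c (n' % n)‖) := by
        gcongr
        exact h.A_mul_le hk
      have h6 : ‖A c n'‖ * ‖A c n‖ ≤ 91 / 100 * ‖A c (n' % n)‖ * ‖A c n‖ := by linarith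
      exact le_of_mul_le_mul_right h6 ha
    have e : z c n' = (quad c)^[n' % n] (z c (n' / n * n)) := by
      unfold z
      rw [← Function.iterate_add_apply]
      congr 1
      omega
    have h5 := h.orbit_rel (h.ball (n' / n)) hr hrn
    rw [← e] at h5
    have h6 : ‖z c (n' % n)‖ ≤ 1003 / 1000 * ‖z c n'‖ := by
      have h7 := norm_le_norm_add_norm_sub (z c n') (z c (n' % n))
      have h8 : 0 ≤ ‖z c n'‖ := norm_nonneg _
      linarith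
    have h7 := h.term hr hrn
    have h8 : ‖A c (n' % n)‖ ≤ 113 / 10000 * ‖A c n‖ ^ 2 * (1003 / 1000 * ‖z c n'‖) := by
      refine h7.trans ?_
      gcongr
    have h9 : ‖A c n'‖ ^ 2 ≤ 91 / 100 * (113 / 10000 * ‖A c n‖ ^ 2 * (1003 / 1000 * (13 / 100))) := by
      calc ‖A c n'‖ ^ 2 = ‖A c n'‖ * ‖A c n'‖ := by ring
        _ ≤ 91 / 100 * ‖A c (n' % n)‖ * ‖A c n'‖ := by gcongr
        _ ≤ 91 / 100 * (113 / 10000 * ‖A c n‖ ^ 2 * (1003 / 1000 * ‖z c n'‖)) * ‖A c n'‖ := by gcongr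
        _ = 91 / 100 * (113 / 10000 * ‖A c n‖ ^ 2 * (1003 / 1000 * (‖z c n'‖ * ‖A c n'‖))) := by ring
        _ ≤ _ := by
          gcongr
          exact h'.small
    nlinarith [sq_pos_of_pos ha']

theorem Sm.unique {n' : ℕ} (h : Sm c n) (h' : Sm c n') : n = n' :=
  le_antisymm (Nat.not_lt.1 (Sm.not_lt h' h)) (Nat.not_lt.1 (Sm.not_lt h h'))

end Pool.Agent.H47.MB
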