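import Pool.Agent.H98.MB.Hole
import Pool.Agent.H47.MB.Disj
import Pool.Agent.H47.MB.Defs

set_option linter.style.longLine false

/-! For almost every parameter the good close returns are rare. -/

namespace Pool.Agent.H47.MB

open Finset Metric MeasureTheory
open scoped ENNReal
open Pool.Agent.H51.IR Pool.Agent.H98.MB

variable {c c' c1 c2 : ℂ} {n : ℕ} {K : ℝ}

/-- the size of the rescaled close return, at least one -/
noncomputable def Kn (c : ℂ) (n : ℕ) : ℝ := max 1 (‖A c n‖ * ‖crit c n‖)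

/-- the good times -/
def GoodTime (c : ℂ) (n : ℕ) : Prop := CloseReturns (Kn c n) c n

theorem CloseReturns.goodTime (hK : 1 ≤ K) (h : CloseReturns K c n) : GoodTime c n := by
  obtain ⟨h1, h2, h3, h4, h5, h6⟩ := h
  refine ⟨h1, h2, h3, le_max_right _ _, ?_, h6⟩
  refine le_trans (mul_le_mul_of_nonneg_right (max_le hK h4) ?_) h5
  refine mul_nonneg (T_nonneg c n) (Finset.sum_nonneg fun i _ => ?_)
  have := T_nonneg c i
  positivity

theorem one_le_Kn (c : ℂ) (n : ℕ) : 1 ≤ Kn c n := le_max_left _ _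

section good

variable (h : GoodTime c n)

include h

theorem GoodTime.one_le : 1 ≤ n := by
  have := h.1
  omega

theorem GoodTime.A_pos : 0 < ‖A c n‖ := norm_pos_iff.2 (A_ne_zero h.2.1)

theorem GoodTime.D_pos : 0 < ‖Dp c n‖ := norm_pos_iff.2 h.2.2.1

theorem GoodTime.hB : 2 * Kn c n / (‖A c n‖ * ‖Dp c n‖) * ∑ j ∈ Ico 1 n, ‖A c j‖ * T c j / ‖crit c j‖
      ≤ 1 / 50 * (‖Dp c n‖ / (‖A c n‖ * T c n)) := by
  have hA := h.A_pos
  have hD := h.D_pos
  have hT : 0 < T c n := lt_of_lt_of_le one_pos (one_le_T c h.one_le)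
  have h5 := h.2.2.2.2.1
  rw [div_mul_eq_mul_div, ← mul_div_assoc, div_le_div_iff₀ (by positivity) (by positivity)]
  calc _ = 2 * ‖A c n‖ * (Kn c n * (T c n * ∑ j ∈ Ico 1 n, ‖A c j‖ * T c j / ‖crit c j‖)) := by ring
    _ ≤ 2 * ‖A c n‖ * (‖Dp c n‖ ^ 2 / 100) := by gcongr
    _ = _ := by ring

theorem GoodTime.pert (hc : ‖c' - c‖ * (‖A c n‖ * ‖Dp c n‖) ≤ 2 * Kn c n) :
    (∀ j ∈ Ico 1 n, crit c' j ≠ 0) ∧ ‖A c' n - A c n‖ ≤ 0.0215 * ‖A c n‖ ∧
    ‖Dp c' n - Dp c n‖ ≤ 0.0215 * ‖Dp c n‖ ∧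
    ∑ j ∈ Ico 1 n, ‖A c' j‖ / ‖crit c' j‖ ≤ 0.0112 * ‖A c' n‖ ^ 2 := by
  have hA := h.A_pos
  have hD := h.D_pos
  have hr : ‖c' - c‖ ≤ 2 * Kn c n / (‖A c n‖ * ‖Dp c n‖) := by
    rw [le_div_iff₀ (by positivity)]
    exact hc
  obtain ⟨h1, h2, h3⟩ := Pool.Agent.H98.MB.pert h.one_le h.2.1 hr h.hB
  exact ⟨fun j hj => (h1 j hj).1, h2 n le_rfl, h3, pert_sum h.one_le h.2.1 hr h.hB h.2.2.2.2.2⟩

theorem GoodTime.exists_zero : ∃ c1, crit c1 n = 0 ∧ ‖c1 - c‖ * ‖Dp c n‖ ≤ 1.022 * ‖crit c n‖ := by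
  have hA := h.A_pos
  have hD := h.D_pos
  have hK := one_le_Kn c n
  have hKz : ‖A c n‖ * ‖crit c n‖ ≤ Kn c n := le_max_right _ _
  obtain ⟨c1, hc1, h0⟩ := Pool.Agent.H98.MB.exists_zero (c := c) (n := n)
    (r := 2 * Kn c n / (‖A c n‖ * ‖Dp c n‖)) h.2.2.1
    (ρ := 1.022 * ‖crit c n‖ / ‖Dp c n‖) (by positivity) (by
      rw [div_le_div_iff₀ hD (by positivity)]
      have h3 := mul_le_mul_of_nonneg_right hKz hD.le
      have h4 : 0 ≤ Kn c n * ‖Dp c n‖ := by positivity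
      nlinarith) (by
      intro c' hc'
      rw [mem_closedBall, dist_eq_norm] at hc'
      exact (Pool.Agent.H98.MB.pert h.one_le h.2.1 hc' h.hB).2.2) (by
      have h3 : 0.9785 * ‖Dp c n‖ * (1.022 * ‖crit c n‖ / ‖Dp c n‖) = 0.9785 * 1.022 * ‖crit c n‖ := by
        field_simp
      rw [h3]
      have := norm_nonneg (crit c n)
      linarith)
  refine ⟨c1, h0, ?_⟩
  rw [mem_closedBall, dist_eq_norm, le_div_iff₀ hD] at hc1
  exact hc1

theorem GoodTime.lin (h1 : ‖c1 - c‖ * (‖A c n‖ * ‖Dp c n‖) ≤ 2 * Kn c n)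
    (h2 : ‖c2 - c‖ * (‖A c n‖ * ‖Dp c n‖) ≤ 2 * Kn c n) :
    ‖crit c1 n - crit c2 n - Dp c n * (c1 - c2)‖ ≤ 0.0215 * ‖Dp c n‖ * ‖c1 - c2‖ := by
  have hA := h.A_pos
  have hD := h.D_pos
  refine crit_lin (c := c) (r := 2 * Kn c n / (‖A c n‖ * ‖Dp c n‖)) ?_ ?_ ?_
  · intro c' hc'
    rw [mem_closedBall, dist_eq_norm] at hc'
    exact (Pool.Agent.H98.MB.pert h.one_le h.2.1 hc' h.hB).2.2
  · rw [mem_closedBall, dist_eq_norm, le_div_iff₀ (by positivity)]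
    exact h1
  · rw [mem_closedBall, dist_eq_norm, le_div_iff₀ (by positivity)]
    exact h2

set_option linter.unusedSectionVars false in
theorem GoodTime.near_zero (h1 : ‖c1 - c‖ * ‖Dp c n‖ ≤ 1.022 * ‖crit c n‖) :
    ‖c1 - c‖ * (‖A c n‖ * ‖Dp c n‖) ≤ 1.022 * Kn c n := by
  have hKz : ‖A c n‖ * ‖crit c n‖ ≤ Kn c n := le_max_right _ _
  have := mul_le_mul_of_nonneg_left h1 (norm_nonneg (A c n))
  calc _ = ‖A c n‖ * (‖c1 - c‖ * ‖Dp c n‖) := by ring
    _ ≤ ‖A c n‖ * (1.022 * ‖crit c n‖) := this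
    _ = 1.022 * (‖A c n‖ * ‖crit c n‖) := by ring
    _ ≤ _ := by gcongr

end good

/-- the rate at a parameter -/
noncomputable def sc (c : ℂ) (n : ℕ) : ℝ := ‖A c n‖ * ‖Dp c n‖

/-- the zeros which are used by some good parameter -/
structure Used (c1 : ℂ) (n : ℕ) : Prop where
  zero : crit c1 n = 0
  ex : ∃ c, GoodTime c n ∧ ‖c1 - c‖ * ‖Dp c n‖ ≤ 1.022 * ‖crit c n‖

theorem GoodTime.sc_bounds (h : GoodTime c n) (h1 : ‖c1 - c‖ * ‖Dp c n‖ ≤ 1.022 * ‖crit c n‖) :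
    0.957 * sc c n ≤ sc c1 n ∧ sc c1 n ≤ 1.044 * sc c n := by
  have hA := h.A_pos
  have hD := h.D_pos
  have hK := one_le_Kn c n
  obtain ⟨-, h2, h3, -⟩ := h.pert ((h.near_zero h1).trans (by linarith))
  have g1 := norm_le_norm_add_norm_sub (A c1 n) (A c n)
  have g2 := norm_le_norm_add_norm_sub' (A c1 n) (A c n)
  have g3 := norm_le_norm_add_norm_sub (Dp c1 n) (Dp c n)
  have g4 := norm_le_norm_add_norm_sub' (Dp c1 n) (Dp c n)
  have a1 : 0.9785 * ‖A c n‖ ≤ ‖A c1 n‖ := by linarith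
  have a2 : ‖A c1 n‖ ≤ 1.0215 * ‖A c n‖ := by linarith
  have d1 : 0.9785 * ‖Dp c n‖ ≤ ‖Dp c1 n‖ := by linarith
  have d2 : ‖Dp c1 n‖ ≤ 1.0215 * ‖Dp c n‖ := by linarith
  have hp : 0 < ‖A c n‖ * ‖Dp c n‖ := by positivity
  unfold sc
  constructor
  · calc 0.957 * (‖A c n‖ * ‖Dp c n‖) ≤ (0.9785 * ‖A c n‖) * (0.9785 * ‖Dp c n‖) := by nlinarith
      _ ≤ _ := by gcongr
  · calc ‖A c1 n‖ * ‖Dp c1 n‖ ≤ (1.0215 * ‖A c n‖) * (1.0215 * ‖Dp c n‖) := by gcongr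
      _ ≤ _ := by nlinarith

theorem Used.sc_pos (h : Used c1 n) : 0 < sc c1 n := by
  obtain ⟨c, hc, h1⟩ := h.ex
  have hp : 0 < sc c n := mul_pos hc.A_pos hc.D_pos
  have := (hc.sc_bounds h1).1
  linarith

/-- the hole of a used zero -/
noncomputable def hole (c1 : ℂ) (n : ℕ) : Set ℂ := closedBall c1 (0.1 / sc c1 n)

theorem Used.dist_hole (hc : GoodTime c n) (h1 : ‖c1 - c‖ * ‖Dp c n‖ ≤ 1.022 * ‖crit c n‖)
    (hc' : c' ∈ hole c1 n) : ‖c' - c1‖ * (‖A c n‖ * ‖Dp c n‖) ≤ 0.105 := by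
  have hp : 0 < sc c n := mul_pos hc.A_pos hc.D_pos
  have hb := (hc.sc_bounds h1).1
  have hs : 0 < sc c1 n := by linarith
  rw [hole, mem_closedBall, dist_eq_norm, le_div_iff₀ hs] at hc'
  change ‖c' - c1‖ * sc c n ≤ 0.105
  have h2 := mul_le_mul_of_nonneg_left hb (norm_nonneg (c' - c1))
  nlinarith

theorem Used.sm (h : Used c1 n) (hc' : c' ∈ hole c1 n) : Sm c' n := by
  obtain ⟨c, hc, h1⟩ := h.ex
  have hK := one_le_Kn c n
  have hA := hc.A_pos
  have hD := hc.D_pos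
  have hd := Used.dist_hole hc h1 hc'
  have hn1 := hc.near_zero h1
  have hn' : ‖c' - c‖ * (‖A c n‖ * ‖Dp c n‖) ≤ 2 * Kn c n := by
    have h2 : ‖c' - c‖ ≤ ‖c' - c1‖ + ‖c1 - c‖ := norm_sub_le_norm_sub_add_norm_sub c' c1 c
    have h3 := mul_le_mul_of_nonneg_right h2 (mul_nonneg hA.le hD.le)
    linarith
  obtain ⟨p1, p2, -, p4⟩ := hc.pert hn'
  have hl := hc.lin hn' (hn1.trans (by linarith))
  rw [h.zero, sub_zero] at hl
  have h4 : ‖A c' n‖ ≤ 1.0215 * ‖A c n‖ := by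
    have h6 := norm_le_norm_add_norm_sub' (A c' n) (A c n)
    linarith
  have h6 : ‖crit c' n‖ ≤ 1.0215 * (‖Dp c n‖ * ‖c' - c1‖) := by
    have h7 := norm_le_norm_add_norm_sub' (crit c' n) (Dp c n * (c' - c1))
    rw [norm_mul] at h7
    linarith
  refine ⟨hc.one_le, fun j hj hjn => p1 j (Finset.mem_Ico.2 ⟨hj, hjn⟩), ?_, ?_⟩
  · refine p4.trans ?_
    have : (0 : ℝ) ≤ ‖A c' n‖ ^ 2 := by positivity
    change 0.0112 * ‖A c' n‖ ^ 2 ≤ 113 / 10000 * ‖A c' n‖ ^ 2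
    nlinarith
  · change ‖crit c' n‖ * ‖A c' n‖ ≤ 13 / 100
    calc ‖crit c' n‖ * ‖A c' n‖ ≤ 1.0215 * (‖Dp c n‖ * ‖c' - c1‖) * (1.0215 * ‖A c n‖) := by gcongr
      _ = 1.0215 * 1.0215 * (‖c' - c1‖ * (‖A c n‖ * ‖Dp c n‖)) := by ring
      _ ≤ 1.0215 * 1.0215 * 0.105 := by gcongr
      _ ≤ 13 / 100 := by norm_num

/-- two used zeros of the same time with intersecting holes are equal -/
theorem Used.eq_of_le (h1 : Used c1 n) (h2 : Used c2 n) (hle : sc c1 n ≤ sc c2 n)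
    (hc1 : c' ∈ hole c1 n) (hc2 : c' ∈ hole c2 n) : c1 = c2 := by
  obtain ⟨c, hc, g1⟩ := h1.ex
  have hK := one_le_Kn c n
  have hA := hc.A_pos
  have hD := hc.D_pos
  have hd := Used.dist_hole hc g1 hc1
  have hn1 := hc.near_zero g1
  have hp : 0 < sc c n := mul_pos hA hD
  have hb := (hc.sc_bounds g1).1
  have hd2 : ‖c2 - c'‖ * (‖A c n‖ * ‖Dp c n‖) ≤ 0.105 := by
    have hs := h2.sc_pos
    rw [hole, mem_closedBall, dist_comm, dist_eq_norm, le_div_iff₀ hs] at hc2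
    change ‖c2 - c'‖ * sc c n ≤ 0.105
    have h3 := mul_le_mul_of_nonneg_left (hb.trans hle) (norm_nonneg (c2 - c'))
    nlinarith
  have hn2 : ‖c2 - c‖ * (‖A c n‖ * ‖Dp c n‖) ≤ 2 * Kn c n := by
    have e1 : ‖c2 - c‖ ≤ ‖c2 - c'‖ + ‖c' - c‖ := norm_sub_le_norm_sub_add_norm_sub c2 c' c
    have e2 : ‖c' - c‖ ≤ ‖c' - c1‖ + ‖c1 - c‖ := norm_sub_le_norm_sub_add_norm_sub c' c1 c
    have h3 := mul_le_mul_of_nonneg_right (e1.trans (add_le_add le_rfl e2)) (mul_nonneg hA.le hD.le)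
    linarith
  have hl := hc.lin (hn1.trans (by linarith)) hn2
  rw [h1.zero, h2.zero, sub_zero, zero_sub, norm_neg, norm_mul] at hl
  have h3 : ‖c1 - c2‖ ≤ 0 := by
    by_contra hcon
    push Not at hcon
    have : 0 < ‖Dp c n‖ * ‖c1 - c2‖ := by positivity
    nlinarith
  exact sub_eq_zero.1 (norm_le_zero_iff.1 h3)

theorem Used.eq {n' : ℕ} (h1 : Used c1 n) (h2 : Used c2 n')
    (hc1 : c' ∈ hole c1 n) (hc2 : c' ∈ hole c2 n') : c1 = c2 ∧ n = n' := by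
  have hn : n = n' := (h1.sm hc1).unique (h2.sm hc2)
  subst hn
  refine ⟨?_, rfl⟩
  rcases le_total (sc c1 n) (sc c2 n) with h | h
  · exact h1.eq_of_le h2 h hc1 hc2
  · exact (h2.eq_of_le h1 h hc2 hc1).symm

theorem Sm.norm_le_two (h : Sm c n) : ‖c‖ ≤ 2 := by
  by_contra hc
  push Not at hc
  have hz : ∀ j, 1 ≤ j → ‖c‖ ≤ ‖crit c j‖ := by
    intro j hj
    induction j, hj using Nat.le_induction with
    | base => rw [crit_one]
    | succ j hj ih =>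
      rw [crit_succ]
      have h1 : ‖crit c j ^ 2‖ ≤ ‖crit c j ^ 2 + c‖ + ‖c‖ := by
        have := norm_sub_le (crit c j ^ 2 + c) c
        rwa [add_sub_cancel_right] at this
      rw [norm_pow] at h1
      nlinarith
  have hA : 1 ≤ ‖A c n‖ := by
    unfold A
    rw [norm_prod]
    refine Finset.prod_induction _ (fun x : ℝ => 1 ≤ x) (fun a b ha hb => ?_) le_rfl ?_
    · nlinarith
    · intro i hi
      have := hz i (Finset.mem_Ico.1 hi).1
      rw [norm_mul]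
      have n2 : ‖(2 : ℂ)‖ = 2 := by simp
      rw [n2]
      linarith
  have h1 : ‖crit c n‖ * ‖A c n‖ ≤ 13 / 100 := h.small
  have h2 := hz n h.one_le
  nlinarith

/-- the used zeros -/
def usedSet : Set (ℂ × ℕ) := {p | Used p.1 p.2}

theorem hole_disj (p q : usedSet) (hpq : p ≠ q) :
    Disjoint (hole p.1.1 p.1.2) (hole q.1.1 q.1.2) := by
  rw [Set.disjoint_left]
  intro x hx hy
  obtain ⟨h1, h2⟩ := Used.eq p.2 q.2 hx hy
  exact hpq (Subtype.ext (Prod.ext h1 h2))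

theorem used_countable : Countable usedSet := by
  refine (Set.countable_coe_iff).2 ?_
  refine Set.PairwiseDisjoint.countable_of_nonempty_interior (s := fun p : ℂ × ℕ => hole p.1 p.2) ?_ ?_
  · intro p hp q hq hpq
    exact hole_disj ⟨p, hp⟩ ⟨q, hq⟩ fun h => hpq (congrArg Subtype.val h)
  · intro p hp
    have hs : 0 < 0.1 / sc p.1 p.2 := div_pos (by norm_num) (Used.sc_pos hp)
    unfold hole
    exact ⟨p.1, ball_subset_interior_closedBall (mem_ball_self hs)⟩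

theorem tsum_hole_le : ∑' p : usedSet, volume (hole p.1.1 p.1.2) ≤ volume (closedBall (0 : ℂ) 2) := by
  refine le_trans (tsum_meas_le_meas_iUnion_of_disjoint volume
    (fun p => (isClosed_closedBall).measurableSet) (fun p q hpq => hole_disj p q hpq)) ?_
  refine measure_mono ?_
  rw [Set.iUnion_subset_iff]
  intro p x hx
  rw [mem_closedBall, dist_zero_right]
  exact (Used.sm p.2 hx).norm_le_two

theorem lintegral_scale {W : ℝ → ℝ≥0∞} (hW : Measurable W) {s : ℝ} (hs : 0 < s) (c1 : ℂ) :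
    ∫⁻ c, W (s * ‖c - c1‖) = ENNReal.ofReal ((s ^ 2)⁻¹) * ∫⁻ y : ℂ, W ‖y‖ := by
  have h1 : ∫⁻ c, W (s * ‖c - c1‖) = ∫⁻ c : ℂ, W (s * ‖c‖) :=
    lintegral_sub_right_eq_self (fun c => W (s * ‖c‖)) c1
  have h2 : (fun c : ℂ => W (s * ‖c‖)) = fun c => W ‖s • c‖ := by
    funext c
    rw [norm_smul, Real.norm_of_nonneg hs.le]
  have hg : Measurable fun y : ℂ => W ‖y‖ := hW.comp measurable_norm
  rw [h1, h2, ← lintegral_map (f := fun y : ℂ => W ‖y‖) hg (measurable_const_smul s),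
    Measure.map_addHaar_smul volume hs.ne', lintegral_smul_measure]
  simp only [Complex.finrank_real_complex, smul_eq_mul]
  congr 2
  rw [abs_of_pos (by positivity)]

theorem volume_hole (p : usedSet) : volume (hole p.1.1 p.1.2) =
    ENNReal.ofReal ((0.1 / sc p.1.1 p.1.2) ^ 2) * (NNReal.pi : ℝ≥0∞) := by
  have hs := Used.sc_pos p.2
  rw [hole, Complex.volume_closedBall, ENNReal.ofReal_pow (by positivity)]

theorem tsum_scale_le : ∑' p : usedSet, ENNReal.ofReal (((0.9 * sc p.1.1 p.1.2) ^ 2)⁻¹) ≤ 500 := by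
  have h1 := tsum_hole_le
  simp only [volume_hole] at h1
  rw [ENNReal.tsum_mul_right, Complex.volume_closedBall] at h1
  have hpi : (NNReal.pi : ℝ≥0∞) ≠ 0 := by
    rw [Ne, ENNReal.coe_eq_zero]
    exact fun h => Real.pi_pos.ne' (congrArg NNReal.toReal h)
  have h2 : ∑' p : usedSet, ENNReal.ofReal ((0.1 / sc p.1.1 p.1.2) ^ 2) ≤ ENNReal.ofReal 2 ^ 2 :=
    (ENNReal.mul_le_mul_iff_left hpi ENNReal.coe_ne_top).1 h1
  have h3 : ∀ p : usedSet, ENNReal.ofReal (((0.9 * sc p.1.1 p.1.2) ^ 2)⁻¹) =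
      ENNReal.ofReal (10000 / 81) * ENNReal.ofReal ((0.1 / sc p.1.1 p.1.2) ^ 2) := by
    intro p
    have hs := Used.sc_pos p.2
    rw [← ENNReal.ofReal_mul (by norm_num)]
    congr 1
    field_simp
    norm_num
  simp only [h3]
  rw [ENNReal.tsum_mul_left]
  refine (mul_le_mul_right h2 _).trans ?_
  rw [← ENNReal.ofReal_pow (by norm_num), ← ENNReal.ofReal_mul (by norm_num)]
  refine ENNReal.ofReal_le_of_le_toReal ?_
  norm_num

/-- a measurable majorant of the sum over the good close returns -/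
theorem exists_majorant {W : ℝ → ℝ≥0∞} (hW : Antitone W) :
    ∃ G : ℂ → ℝ≥0∞, Measurable G ∧
      (∀ c, ∑' n : {n | GoodTime c n}, W (‖A c n‖ * ‖crit c n‖) ≤ G c) ∧
      ∫⁻ c, G c ≤ 500 * ∫⁻ y : ℂ, W ‖y‖ := by
  have hWm : Measurable W := hW.measurable
  have hcount := used_countable
  set F : usedSet → ℂ → ℝ≥0∞ := fun p c => W (0.9 * sc p.1.1 p.1.2 * ‖c - p.1.1‖) with hF
  have hFm : ∀ p, Measurable (F p) := fun p =>
    hWm.comp ((measurable_id.sub_const _).norm.const_mul _)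
  refine ⟨fun c => ∑' p, F p c, Measurable.tsum hFm, ?_, ?_⟩
  · intro c
    choose g hg0 hg using fun n : {n | GoodTime c n} => GoodTime.exists_zero n.2
    set φ : {n | GoodTime c n} → usedSet := fun n => ⟨(g n, n.1), ⟨hg0 n, c, n.2, hg n⟩⟩ with hφ
    have hinj : Function.Injective φ := by
      intro m n h
      have := congrArg (fun p : usedSet => p.1.2) h
      exact Subtype.ext this
    refine le_trans (ENNReal.tsum_le_tsum fun n => ?_)
      (ENNReal.tsum_comp_le_tsum_of_injective hinj _)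
    have hn : GoodTime c n.1 := n.2
    show W _ ≤ W _
    refine hW ?_
    have hb := (hn.sc_bounds (hg n)).2
    have hD := hn.D_pos
    have hA := hn.A_pos
    have h4 := mul_le_mul_of_nonneg_left (hg n) hA.le
    have h5 : ‖c - g n‖ = ‖g n - c‖ := norm_sub_rev _ _
    show 0.9 * sc (g n) n.1 * ‖c - g n‖ ≤ _
    rw [h5]
    have h6 : sc (g n) n.1 * ‖g n - c‖ ≤ 1.044 * sc c n.1 * ‖g n - c‖ :=
      mul_le_mul_of_nonneg_right hb (norm_nonneg _)
    have h7 : sc c n.1 * ‖g n - c‖ ≤ 1.022 * (‖A c n.1‖ * ‖crit c n.1‖) := by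
      unfold sc
      calc _ = ‖A c n.1‖ * (‖g n - c‖ * ‖Dp c n.1‖) := by ring
        _ ≤ _ := h4
        _ = _ := by ring
    have h8 : 0 ≤ ‖A c n.1‖ * ‖crit c n.1‖ := by positivity
    nlinarith
  · rw [lintegral_tsum fun p => (hFm p).aemeasurable]
    have h2 : ∀ p : usedSet, ∫⁻ c, F p c =
        ENNReal.ofReal (((0.9 * sc p.1.1 p.1.2) ^ 2)⁻¹) * ∫⁻ y : ℂ, W ‖y‖ := by
      intro p
      have hs := Used.sc_pos p.2
      exact lintegral_scale hWm (by positivity) _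
    simp only [h2]
    rw [ENNReal.tsum_mul_right]
    gcongr
    exact tsum_scale_le

/-- the good close returns are rare in the mean -/
theorem lintegral_sum_le {W : ℝ → ℝ≥0∞} (hW : Antitone W) :
    ∫⁻ c : ℂ, ∑' n : {n | GoodTime c n}, W (‖A c n‖ * ‖crit c n‖) ≤ 500 * ∫⁻ y : ℂ, W ‖y‖ := by
  obtain ⟨G, -, h1, h2⟩ := exists_majorant hW
  exact (lintegral_mono h1).trans h2

/-- for almost every parameter the good close returns are rare -/
theorem ae_sum_lt {W : ℝ → ℝ≥0∞} (hW : Antitone W) (hI : ∫⁻ y : ℂ, W ‖y‖ < ∞) :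
    ∀ᵐ c : ℂ, ∑' n : {n | GoodTime c n}, W (‖A c n‖ * ‖crit c n‖) < ∞ := by
  obtain ⟨G, hG, h1, h2⟩ := exists_majorant hW
  have h3 := ae_lt_top hG (lt_of_le_of_lt h2 (ENNReal.mul_lt_top (by norm_num) hI)).ne
  filter_upwards [h3] with c hc
  exact lt_of_le_of_lt (h1 c) hc

/-- for almost every parameter only finitely many good close returns have size at most `K` -/
theorem ae_finite : ∀ᵐ c : ℂ, ∀ K : ℝ, {n | GoodTime c n ∧ ‖A c n‖ * ‖crit c n‖ ≤ K}.Finite := by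
  have key : ∀ K : ℕ, ∀ᵐ c : ℂ, {n | GoodTime c n ∧ ‖A c n‖ * ‖crit c n‖ ≤ K}.Finite := by
    intro K
    set W : ℝ → ℝ≥0∞ := (Set.Iic (K : ℝ)).indicator 1 with hWdef
    have hW : Antitone W := by
      intro x y hxy
      simp only [hWdef, Set.indicator_apply, Set.mem_Iic, Pi.one_apply]
      split_ifs with h1 h2
      · exact le_rfl
      · exact absurd (hxy.trans h1) h2
      · exact zero_le_one
      · exact le_rfl
    have hI : ∫⁻ y : ℂ, W ‖y‖ < ∞ := by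
      have h1 : (fun y : ℂ => W ‖y‖) = (closedBall (0 : ℂ) K).indicator 1 := by
        funext y
        by_cases h : ‖y‖ ≤ (K : ℝ)
        · rw [hWdef, Set.indicator_of_mem (Set.mem_Iic.2 h),
            Set.indicator_of_mem (mem_closedBall_zero_iff.2 h)]
          rfl
        · rw [hWdef, Set.indicator_of_notMem (fun h' => h (Set.mem_Iic.1 h')),
            Set.indicator_of_notMem (fun h' => h (mem_closedBall_zero_iff.1 h'))]
      rw [h1, lintegral_indicator_one isClosed_closedBall.measurableSet]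
      exact (isCompact_closedBall _ _).measure_lt_top
    filter_upwards [ae_sum_lt hW hI] with c hc
    have h3 : {n : {n | GoodTime c n} | (1 : ℝ≥0∞) ≤ W (‖A c n‖ * ‖crit c n‖)}.Finite :=
      ENNReal.finite_const_le_of_tsum_ne_top hc.ne one_ne_zero
    refine (h3.image Subtype.val).subset ?_
    rintro n ⟨h4, h5⟩
    refine ⟨⟨n, h4⟩, ?_, rfl⟩
    show (1 : ℝ≥0∞) ≤ W (‖A c n‖ * ‖crit c n‖)
    rw [hWdef, Set.indicator_of_mem (Set.mem_Iic.2 h5), Pi.one_apply]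
  rw [← ae_all_iff] at key
  filter_upwards [key] with c hc K
  obtain ⟨m, hm⟩ := exists_nat_ge K
  exact (hc m).subset fun n hn => ⟨hn.1, hn.2.trans hm⟩

end Pool.Agent.H47.MB
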