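import Pool.Agent.H48.MB.Dyn

set_option linter.style.longLine false

/-! The iterate `f^n` near `0`, with an arbitrary distortion constant; a parameter is in the small
disc of at most one time. -/

namespace Pool.Agent.H47.MB.Gen

open Finset Pool.Agent.H51.IR Pool.Agent.H48.MB

theorem exp_s : Real.exp (401 / 160000) - 1 ≤ 26 / 10000 := by
  have h := Real.exp_bound_div_one_sub_of_interval (x := 401 / 160000) (by norm_num) (by norm_num)
  norm_num at h ⊢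
  linarith

section basic

variable {c : ℂ} {n : ℕ} {R : ℝ} (hz : ∀ j, 1 ≤ j → j < n → z c j ≠ 0)
  (hS : (∑ j ∈ Ico 1 n, ‖A c j‖ / ‖z c j‖) * R ^ 2 ≤ 1 / 400)

include hz hS

/-- the orbit of a point of the disc of radius `R` -/
theorem orbit {x : ℂ} (hx : ‖x‖ ≤ R) {j : ℕ} (hj : 1 ≤ j) (hjn : j ≤ n) :
    ‖(quad c)^[j] x - z c j‖ ≤ ‖A c j‖ * ‖x‖ ^ 2 * (401 / 400) := by
  have hS0 : 0 ≤ ∑ j ∈ Ico 1 n, ‖A c j‖ / ‖z c j‖ := sum_nonneg fun i _ => by positivity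
  have h0 : (∑ j ∈ Ico 1 n, ‖A c j‖ / ‖z c j‖) * ‖x ^ 2‖ ≤ 1 / 400 := by
    rw [norm_pow]
    refine le_trans (mul_le_mul_of_nonneg_left ?_ hS0) hS
    gcongr
  have h1 := orbit_pert hz (h0.trans (by norm_num)) j hj hjn
  obtain ⟨m, rfl⟩ := Nat.exists_eq_add_of_le' hj
  rw [Nat.add_sub_cancel] at h1
  have e : quad c x = c + x ^ 2 := by unfold quad; ring
  rw [Function.iterate_succ_apply, e]
  refine h1.trans ?_
  rw [norm_pow]
  refine mul_le_mul_of_nonneg_left ?_ (by positivity)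
  have h2 : (∑ i ∈ Ico 1 (m + 1), ‖A c i‖ / ‖z c i‖) * ‖x‖ ^ 2 ≤
      (∑ i ∈ Ico 1 n, ‖A c i‖ / ‖z c i‖) * ‖x‖ ^ 2 := by
    refine mul_le_mul_of_nonneg_right ?_ (by positivity)
    exact sum_le_sum_of_subset_of_nonneg (Ico_subset_Ico_right hjn) fun i _ _ => by positivity
  rw [norm_pow] at h0
  linarith

/-- products of sums along two orbits -/
theorem prod2 {x x' : ℂ} (hx : ‖x‖ ≤ R) (hx' : ‖x'‖ ≤ R) {r : ℕ} (hrn : r ≤ n) :
    ‖∏ i ∈ Ico 1 r, ((quad c)^[i] x + (quad c)^[i] x')‖ ≤ 10026 / 10000 * ‖A c r‖ := by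
  have hR : 0 ≤ R := (norm_nonneg _).trans hx
  have hsum : ∑ i ∈ Ico 1 r, ‖((quad c)^[i] x + (quad c)^[i] x') / 2 - z c i‖ / ‖z c i‖ ≤
      401 / 160000 := by
    calc _ ≤ ∑ i ∈ Ico 1 r, (‖A c i‖ / ‖z c i‖) * (R ^ 2 * (401 / 400)) := by
          refine sum_le_sum fun i hi => ?_
          rw [mem_Ico] at hi
          have hX : 0 < ‖z c i‖ := norm_pos_iff.2 (hz i hi.1 (by omega))
          have g1 := orbit hz hS hx hi.1 (by omega)
          have g2 := orbit hz hS hx' hi.1 (by omega)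
          have e : ((quad c)^[i] x + (quad c)^[i] x') / 2 - z c i =
              (((quad c)^[i] x - z c i) + ((quad c)^[i] x' - z c i)) / 2 := by ring
          have k1 : ‖A c i‖ * ‖x‖ ^ 2 * (401 / 400) ≤ ‖A c i‖ * R ^ 2 * (401 / 400) := by gcongr
          have k2 : ‖A c i‖ * ‖x'‖ ^ 2 * (401 / 400) ≤ ‖A c i‖ * R ^ 2 * (401 / 400) := by gcongr
          rw [e, div_mul_eq_mul_div, div_le_div_iff_of_pos_right hX, norm_div]
          have n3 := norm_add_le ((quad c)^[i] x - z c i) ((quad c)^[i] x' - z c i)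
          have n2 : ‖(2 : ℂ)‖ = 2 := by simp
          rw [n2]
          linarith
      _ = (∑ i ∈ Ico 1 r, ‖A c i‖ / ‖z c i‖) * (R ^ 2 * (401 / 400)) := by rw [sum_mul]
      _ ≤ (∑ i ∈ Ico 1 n, ‖A c i‖ / ‖z c i‖) * (R ^ 2 * (401 / 400)) := by
          refine mul_le_mul_of_nonneg_right ?_ (by positivity)
          exact sum_le_sum_of_subset_of_nonneg (Ico_subset_Ico_right hrn) fun i _ _ => by positivity
      _ = ((∑ i ∈ Ico 1 n, ‖A c i‖ / ‖z c i‖) * R ^ 2) * (401 / 400) := by ring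
      _ ≤ 1 / 400 * (401 / 400) := by gcongr
      _ = 401 / 160000 := by norm_num
  have hp := prod_ratio (s := Ico 1 r) (x := z c)
    (y := fun i => ((quad c)^[i] x + (quad c)^[i] x') / 2)
    (fun i hi => by rw [mem_Ico] at hi; exact hz i hi.1 (by omega)) hsum
  have e1 : ∏ i ∈ Ico 1 r, (2 * (((quad c)^[i] x + (quad c)^[i] x') / 2))
      = ∏ i ∈ Ico 1 r, ((quad c)^[i] x + (quad c)^[i] x') :=
    prod_congr rfl fun i _ => by ring
  rw [e1] at hp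
  change ‖_ - A c r‖ ≤ ‖A c r‖ * _ at hp
  have h6 := norm_le_norm_add_norm_sub' (∏ i ∈ Ico 1 r, ((quad c)^[i] x + (quad c)^[i] x')) (A c r)
  have h9 := mul_le_mul_of_nonneg_left exp_s (norm_nonneg (A c r))
  linarith

theorem prod1 {x : ℂ} (hx : ‖x‖ ≤ R) {r : ℕ} (hrn : r ≤ n) :
    ‖∏ i ∈ Ico 1 r, (2 * (quad c)^[i] x)‖ ≤ 10026 / 10000 * ‖A c r‖ := by
  have h := prod2 hz hS hx hx hrn
  simpa only [← two_mul] using h

theorem lip {x x' : ℂ} (hn : 1 ≤ n) (hx : ‖x‖ ≤ R) (hx' : ‖x'‖ ≤ R) :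
    ‖(quad c)^[n] x - (quad c)^[n] x'‖ ≤ 2 * R * (10026 / 10000 * ‖A c n‖) * ‖x - x'‖ := by
  have hR : 0 ≤ R := (norm_nonneg _).trans hx
  have h := prod2 hz hS hx hx' le_rfl
  obtain ⟨m, rfl⟩ := Nat.exists_eq_add_of_le' hn
  have e : ∀ v, (quad c)^[m + 1] v = (quad c)^[m] (quad c v) := fun v => rfl
  rw [e, e, iterate_sub_eq, norm_mul]
  have e3 : quad c x - quad c x' = (x - x') * (x + x') := by unfold quad; ring
  have e4 : ∏ i ∈ Ico 1 (m + 1), ((quad c)^[i - 1] (quad c x) + (quad c)^[i - 1] (quad c x')) =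
      ∏ i ∈ Ico 1 (m + 1), ((quad c)^[i] x + (quad c)^[i] x') := by
    refine prod_congr rfl fun i hi => ?_
    obtain ⟨l, rfl⟩ := Nat.exists_eq_add_of_le' (mem_Ico.1 hi).1
    rw [Nat.add_sub_cancel]
    rfl
  rw [e3, e4, norm_mul]
  have h3 : ‖x + x'‖ ≤ 2 * R := (norm_add_le _ _).trans (by linarith)
  calc ‖x - x'‖ * ‖x + x'‖ * ‖∏ i ∈ Ico 1 (m + 1), ((quad c)^[i] x + (quad c)^[i] x')‖
      ≤ ‖x - x'‖ * (2 * R) * (10026 / 10000 * ‖A c (m + 1)‖) := by gcongr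
    _ = _ := by ring

end basic

/-- `0` is close to being periodic of period `n`, with distortion constant `M` -/
structure Sm (c : ℂ) (n : ℕ) (M : ℝ) : Prop where
  one_le_M : 1 ≤ M
  one_le : 1 ≤ n
  ne : ∀ j, 1 ≤ j → j < n → z c j ≠ 0
  sum : ∑ j ∈ Ico 1 n, ‖A c j‖ / ‖z c j‖ ≤ M * ‖A c n‖ ^ 2
  small : ‖z c n‖ * (M * ‖A c n‖) ≤ 1 / 50

/-- the radius of the invariant disc -/
noncomputable def Rd (c : ℂ) (n : ℕ) (M : ℝ) : ℝ := 1 / (20 * (M * ‖A c n‖))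

variable {c : ℂ} {n : ℕ} {M M' : ℝ}

theorem Sm.pos (h : Sm c n M) {j : ℕ} (hj : j ≤ n) : 0 < ‖A c j‖ := norm_pos_iff.2 (A_ne c h.ne hj)

theorem Sm.M_pos (h : Sm c n M) : 0 < M := lt_of_lt_of_le one_pos h.one_le_M

theorem Sm.Rd_pos (h : Sm c n M) : 0 < Rd c n M := by
  have := h.pos le_rfl
  have := h.M_pos
  unfold Rd
  positivity

theorem Sm.Rd_mul (h : Sm c n M) : Rd c n M * (M * ‖A c n‖) = 1 / 20 := by
  have := (h.pos le_rfl).ne'
  have := h.M_pos.ne'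
  unfold Rd
  field_simp

theorem Sm.hS (h : Sm c n M) : (∑ j ∈ Ico 1 n, ‖A c j‖ / ‖z c j‖) * Rd c n M ^ 2 ≤ 1 / 400 := by
  have h1 := h.M_pos
  have h2 := h.pos le_rfl
  have h3 := h.Rd_mul
  have h4 := h.one_le_M
  calc _ ≤ M * ‖A c n‖ ^ 2 * Rd c n M ^ 2 := mul_le_mul_of_nonneg_right h.sum (by positivity)
    _ ≤ M * (M * ‖A c n‖ ^ 2 * Rd c n M ^ 2) := by
        have : 0 ≤ M * ‖A c n‖ ^ 2 * Rd c n M ^ 2 := by positivity
        nlinarith
    _ = (Rd c n M * (M * ‖A c n‖)) ^ 2 := by ring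
    _ = 1 / 400 := by rw [h3]; norm_num

theorem Sm.map (h : Sm c n M) {x : ℂ} (hx : ‖x‖ ≤ Rd c n M) : ‖(quad c)^[n] x‖ < Rd c n M := by
  have h1 := orbit h.ne h.hS hx h.one_le le_rfl
  have h2 := h.M_pos
  have h3 := h.pos le_rfl
  have h4 := h.Rd_mul
  have h5 := h.small
  have h6 : ‖(quad c)^[n] x‖ ≤ ‖z c n‖ + ‖A c n‖ * ‖x‖ ^ 2 * (401 / 400) := by
    have := norm_add_le (z c n) ((quad c)^[n] x - z c n)
    rw [add_sub_cancel] at this
    linarith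
  have h7 : ‖A c n‖ * ‖x‖ ^ 2 * (401 / 400) ≤ ‖A c n‖ * Rd c n M ^ 2 * (401 / 400) := by gcongr
  have h8 : 0 < M * ‖A c n‖ := by positivity
  refine lt_of_mul_lt_mul_right ?_ h8.le
  rw [h4]
  have h9 : ‖A c n‖ * Rd c n M ^ 2 * (401 / 400) * (M * ‖A c n‖) ≤ 401 / 160000 := by
    calc _ ≤ M * (‖A c n‖ * Rd c n M ^ 2 * (401 / 400) * (M * ‖A c n‖)) := by
          have := h.one_le_M
          have : 0 ≤ ‖A c n‖ * Rd c n M ^ 2 * (401 / 400) * (M * ‖A c n‖) := by positivity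
          nlinarith
      _ = (Rd c n M * (M * ‖A c n‖)) ^ 2 * (401 / 400) := by ring
      _ = 401 / 160000 := by rw [h4]; norm_num
  have h10 := mul_le_mul_of_nonneg_right (h6.trans (add_le_add le_rfl h7)) h8.le
  rw [add_mul] at h10
  linarith

theorem Sm.lip (h : Sm c n M) {x x' : ℂ} (hx : ‖x‖ ≤ Rd c n M) (hx' : ‖x'‖ ≤ Rd c n M) :
    ‖(quad c)^[n] x - (quad c)^[n] x'‖ ≤ 1 / 9 * ‖x - x'‖ := by
  refine (Gen.lip h.ne h.hS h.one_le hx hx').trans (mul_le_mul_of_nonneg_right ?_ (norm_nonneg _))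
  have h1 := h.Rd_mul
  have h2 := h.one_le_M
  have h3 : Rd c n M * ‖A c n‖ ≤ 1 / 20 := by
    have := mul_nonneg h.Rd_pos.le (h.pos le_rfl).le
    nlinarith
  linarith

theorem Sm.not_isRenorm (h : Sm c n M) {p : ℕ} (hp : n < p) : ¬ IsRenorm p c :=
  not_isRenorm_of_attracting (R := Rd c n M) (q := 1 / 9) h.one_le hp h.Rd_pos (by norm_num)
    (by norm_num) (fun _ hw => h.map hw) (fun _ _ hw hw' => h.lip hw hw')

theorem Sm.term (h : Sm c n M) {j : ℕ} (hj : 1 ≤ j) (hjn : j < n) :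
    ‖A c j‖ ≤ M * ‖A c n‖ ^ 2 * ‖z c j‖ := by
  have h1 : ‖A c j‖ / ‖z c j‖ ≤ M * ‖A c n‖ ^ 2 :=
    (Finset.single_le_sum (f := fun j => ‖A c j‖ / ‖z c j‖) (fun i _ => by positivity)
      (Finset.mem_Ico.2 ⟨hj, hjn⟩)).trans h.sum
  rwa [div_le_iff₀ (norm_pos_iff.2 (h.ne j hj hjn))] at h1

theorem Sm.orbit_rel (h : Sm c n M) {x : ℂ} (hx : ‖x‖ ≤ Rd c n M) {j : ℕ} (hj : 1 ≤ j) (hjn : j < n) :
    ‖(quad c)^[j] x - z c j‖ ≤ 26 / 10000 * ‖z c j‖ := by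
  have h2 := h.M_pos
  have h4 := h.Rd_mul
  have h5 := h.one_le_M
  refine (orbit h.ne h.hS hx hj hjn.le).trans ?_
  have h6 : M * (‖A c n‖ ^ 2 * Rd c n M ^ 2) ≤ 1 / 400 := by
    calc _ ≤ M * (M * (‖A c n‖ ^ 2 * Rd c n M ^ 2)) := by
          have : 0 ≤ M * (‖A c n‖ ^ 2 * Rd c n M ^ 2) := by positivity
          nlinarith
      _ = (Rd c n M * (M * ‖A c n‖)) ^ 2 := by ring
      _ = 1 / 400 := by rw [h4]; norm_num
  calc ‖A c j‖ * ‖x‖ ^ 2 * (401 / 400)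
      ≤ M * ‖A c n‖ ^ 2 * ‖z c j‖ * Rd c n M ^ 2 * (401 / 400) := by
        gcongr
        exact h.term hj hjn
    _ = M * (‖A c n‖ ^ 2 * Rd c n M ^ 2) * (401 / 400) * ‖z c j‖ := by ring
    _ ≤ 1 / 400 * (401 / 400) * ‖z c j‖ := by gcongr
    _ ≤ _ := by
      gcongr
      norm_num

theorem z_mul_succ (c : ℂ) (k n : ℕ) : z c ((k + 1) * n) = (quad c)^[n] (z c (k * n)) := by
  unfold z
  rw [← Function.iterate_add_apply]
  congr 1
  ring_nf

theorem Sm.ball (h : Sm c n M) (k : ℕ) : ‖z c (k * n)‖ ≤ Rd c n M := by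
  induction k with
  | zero =>
    rw [zero_mul, z_zero, norm_zero]
    exact h.Rd_pos.le
  | succ k ih =>
    rw [z_mul_succ]
    exact (h.map ih).le

theorem A_add {k r : ℕ} (hk : 1 ≤ k) (hr : 1 ≤ r) :
    A c (k + r) = A c k * (2 * z c k) * ∏ i ∈ Ico 1 r, (2 * (quad c)^[i] (z c k)) := by
  obtain ⟨m, rfl⟩ := Nat.exists_eq_add_of_le' hr
  induction m with
  | zero => simp [A_succ c hk]
  | succ m ih =>
    rw [← add_assoc, A_succ c (by omega), ih (by omega),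
      prod_Ico_succ_top (a := 1) (b := m + 1) (by omega)]
    have e : z c (k + (m + 1)) = (quad c)^[m + 1] (z c k) := by
      unfold z
      rw [add_comm k, Function.iterate_add_apply]
    rw [e]
    ring

theorem Sm.A_add_le (h : Sm c n M) {k : ℕ} (hk : 1 ≤ k) {r : ℕ} (hr : 1 ≤ r) (hrn : r ≤ n) :
    ‖A c (k * n + r)‖ * (M * ‖A c n‖) ≤ 101 / 1000 * (‖A c (k * n)‖ * ‖A c r‖) := by
  have ha := h.pos le_rfl
  have hM := h.M_pos
  have hx := h.ball k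
  have hx' : ‖z c (k * n)‖ * (M * ‖A c n‖) ≤ 1 / 20 := by
    rw [← h.Rd_mul]
    gcongr
  have hp := prod1 h.ne h.hS hx hrn
  have hkn : 1 ≤ k * n := Nat.mul_pos hk h.one_le
  rw [A_add hkn hr, norm_mul, norm_mul, norm_mul]
  have n2 : ‖(2 : ℂ)‖ = 2 := by simp
  rw [n2]
  calc ‖A c (k * n)‖ * (2 * ‖z c (k * n)‖) * ‖∏ i ∈ Ico 1 r, (2 * (quad c)^[i] (z c (k * n)))‖ *
        (M * ‖A c n‖)
      ≤ ‖A c (k * n)‖ * (2 * ‖z c (k * n)‖) * (10026 / 10000 * ‖A c r‖) * (M * ‖A c n‖) := by gcongr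
    _ = ‖A c (k * n)‖ * (‖z c (k * n)‖ * (M * ‖A c n‖)) * (2 * (10026 / 10000)) * ‖A c r‖ := by ring
    _ ≤ ‖A c (k * n)‖ * (1 / 20) * (2 * (10026 / 10000)) * ‖A c r‖ := by gcongr
    _ ≤ 101 / 1000 * (‖A c (k * n)‖ * ‖A c r‖) := by
      have : 0 ≤ ‖A c (k * n)‖ * ‖A c r‖ := by positivity
      nlinarith

theorem Sm.A_succ_mul (h : Sm c n M) {k : ℕ} (hk : 1 ≤ k) :
    ‖A c ((k + 1) * n)‖ ≤ 101 / 1000 * ‖A c (k * n)‖ := by
  have ha := h.pos le_rfl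
  have hM := h.one_le_M
  have h1 := h.A_add_le hk h.one_le le_rfl
  have h3 : ‖A c (k * n + n)‖ * ‖A c n‖ ≤ ‖A c (k * n + n)‖ * (M * ‖A c n‖) := by
    have : 0 ≤ ‖A c (k * n + n)‖ * ‖A c n‖ := by positivity
    nlinarith
  have h2 : ‖A c (k * n + n)‖ ≤ 101 / 1000 * ‖A c (k * n)‖ := by
    have h4 : 101 / 1000 * (‖A c (k * n)‖ * ‖A c n‖) = 101 / 1000 * ‖A c (k * n)‖ * ‖A c n‖ := by ring
    rw [h4] at h1
    exact le_of_mul_le_mul_right (h3.trans h1) ha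
  rwa [add_one_mul]

theorem Sm.A_mul_le (h : Sm c n M) {k : ℕ} (hk : 1 ≤ k) : ‖A c (k * n)‖ ≤ ‖A c n‖ := by
  induction k, hk using Nat.le_induction with
  | base => rw [one_mul]
  | succ k hk ih =>
    have := h.A_succ_mul hk
    have := norm_nonneg (A c (k * n))
    linarith

/-- the critical orbit of `f^n` stays away from `0` -/
theorem Sm.z_mul_near (h : Sm c n M) {k : ℕ} (hk : 1 ≤ k) :
    ‖z c (k * n) - z c n‖ ≤ 3 / 100 * ‖z c n‖ := by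
  have ha := h.pos le_rfl
  have hM := h.one_le_M
  have hs := h.small
  induction k, hk using Nat.le_induction with
  | base => rw [one_mul, sub_self, norm_zero]; positivity
  | succ k hk ih =>
    rw [z_mul_succ]
    refine (orbit h.ne h.hS (h.ball k) h.one_le le_rfl).trans ?_
    have h1 : ‖z c (k * n)‖ ≤ 103 / 100 * ‖z c n‖ := by
      have := norm_le_norm_add_norm_sub' (z c (k * n)) (z c n)
      linarith
    have h2 : ‖z c n‖ * ‖A c n‖ ≤ 1 / 50 := by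
      have : 0 ≤ ‖z c n‖ * ‖A c n‖ := by positivity
      nlinarith
    calc ‖A c n‖ * ‖z c (k * n)‖ ^ 2 * (401 / 400)
        ≤ ‖A c n‖ * (103 / 100 * ‖z c n‖) ^ 2 * (401 / 400) := by gcongr
      _ = (‖z c n‖ * ‖A c n‖) * ((103 / 100) ^ 2 * (401 / 400)) * ‖z c n‖ := by ring
      _ ≤ (1 / 50) * ((103 / 100) ^ 2 * (401 / 400)) * ‖z c n‖ := by gcongr
      _ ≤ 3 / 100 * ‖z c n‖ := by
        gcongr
        norm_num

/-- a parameter is in the small disc of at most one time -/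
theorem Sm.not_lt {n' : ℕ} (h : Sm c n M) (h' : Sm c n' M') : ¬ n < n' := by
  intro hlt
  have ha := h.pos le_rfl
  have ha' := h'.pos le_rfl
  have hM := h.one_le_M
  have hM' := h'.one_le_M
  have h1 := h'.term h.one_le hlt
  have hn := h.one_le
  have hk : 1 ≤ n' / n := (Nat.one_le_div_iff (by omega)).2 hlt.le
  have hdm : n' / n * n + n' % n = n' := by rw [mul_comm]; exact Nat.div_add_mod n' n
  have hrn : n' % n < n := Nat.mod_lt _ (by omega)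
  rcases Nat.eq_zero_or_pos (n' % n) with hr | hr
  · rw [hr, add_zero] at hdm
    have hk2 : 2 ≤ n' / n := by
      by_contra hcon
      have : n' / n = 1 := by omega
      rw [this] at hdm
      omega
    obtain ⟨k, hk'⟩ : ∃ k, n' / n = k + 1 := ⟨n' / n - 1, by omega⟩
    have hk1 : 1 ≤ k := by omega
    have h3 := h.A_succ_mul hk1
    have h4 := h.A_mul_le hk1
    rw [← hk', hdm] at h3
    -- `|z_{n'}| ≥ .97 |z_n|`
    have h5 := h.z_mul_near hk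
    rw [hdm] at h5
    have h6 : 97 / 100 * ‖z c n‖ ≤ ‖z c n'‖ := by
      have := norm_le_norm_add_norm_sub (z c n') (z c n)
      linarith
    have h7 := h'.small
    -- `a ≤ M' a'^2 |z_n| ≤ (1 / 50) a' / .97`
    have h8 : ‖A c n‖ ≤ 1 / 40 * ‖A c n'‖ := by
      have g1 : M' * ‖A c n'‖ * ‖z c n‖ ≤ 1 / 40 := by
        have g2 : M' * ‖A c n'‖ * (97 / 100 * ‖z c n‖) ≤ M' * ‖A c n'‖ * ‖z c n'‖ := by gcongr
        nlinarith
      calc ‖A c n‖ ≤ M' * ‖A c n'‖ ^ 2 * ‖z c n‖ := h1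
        _ = (M' * ‖A c n'‖ * ‖z c n‖) * ‖A c n'‖ := by ring
        _ ≤ _ := by gcongr
    linarith
  · have h3 := h.A_add_le hk hr hrn.le
    rw [hdm] at h3
    have h4 : ‖A c n'‖ * M ≤ 101 / 1000 * ‖A c (n' % n)‖ := by
      have h5 : 101 / 1000 * (‖A c (n' / n * n)‖ * ‖A c (n' % n)‖) ≤
          101 / 1000 * (‖A c n‖ * ‖A c (n' % n)‖) := by
        gcongr
        exact h.A_mul_le hk
      have h6 : ‖A c n'‖ * M * ‖A c n‖ ≤ 101 / 1000 * ‖A c (n' % n)‖ * ‖A c n‖ := by linarith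
      exact le_of_mul_le_mul_right h6 ha
    have e : z c n' = (quad c)^[n' % n] (z c (n' / n * n)) := by
      unfold z
      rw [← Function.iterate_add_apply]
      congr 1
      omega
    have h5 := h.orbit_rel (h.ball (n' / n)) hr hrn
    rw [← e] at h5
    have h6 : ‖z c (n' % n)‖ ≤ 1003 / 1000 * ‖z c n'‖ := by
      have h7 := norm_le_norm_add_norm_sub (z c n') (z c (n' % n))
      have h8 : 0 ≤ ‖z c n'‖ := norm_nonneg _
      linarith
    have h7 := h.term hr hrn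
    -- `|A_r| M' a' ≤ M a^2 * 1.003 / 50`
    have h8 : ‖A c (n' % n)‖ * (M' * ‖A c n'‖) ≤ M * ‖A c n‖ ^ 2 * (1003 / 50000) := by
      calc ‖A c (n' % n)‖ * (M' * ‖A c n'‖)
          ≤ M * ‖A c n‖ ^ 2 * (1003 / 1000 * ‖z c n'‖) * (M' * ‖A c n'‖) := by
            have g : ‖A c (n' % n)‖ ≤ M * ‖A c n‖ ^ 2 * (1003 / 1000 * ‖z c n'‖) :=
              h7.trans (by gcongr)
            gcongr
        _ = M * ‖A c n‖ ^ 2 * (1003 / 1000) * (‖z c n'‖ * (M' * ‖A c n'‖)) := by ring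
        _ ≤ M * ‖A c n‖ ^ 2 * (1003 / 1000) * (1 / 50) := by
            gcongr
            exact h'.small
        _ = _ := by ring
    -- `a'^2 M' ≤ .0021 a^2`
    have h9 : ‖A c n'‖ ^ 2 * M' ≤ 21 / 10000 * ‖A c n‖ ^ 2 := by
      have g1 : ‖A c n'‖ * M * (M' * ‖A c n'‖) ≤
          101 / 1000 * ‖A c (n' % n)‖ * (M' * ‖A c n'‖) := by gcongr
      have g2 : M * (‖A c n'‖ ^ 2 * M') ≤ M * (21 / 10000 * ‖A c n‖ ^ 2) := by
        have : 0 ≤ M * ‖A c n‖ ^ 2 := by positivity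
        nlinarith
      exact le_of_mul_le_mul_left g2 (by positivity)
    -- `a^2 ≤ M' a'^2 / 50`
    have h10 : ‖A c n‖ ^ 2 ≤ 1 / 50 * (‖A c n'‖ ^ 2 * M') := by
      have g1 : ‖z c n‖ * ‖A c n‖ ≤ 1 / 50 := by
        have := h.small
        have : 0 ≤ ‖z c n‖ * ‖A c n‖ := by positivity
        nlinarith
      calc ‖A c n‖ ^ 2 = ‖A c n‖ * ‖A c n‖ := by ring
        _ ≤ M' * ‖A c n'‖ ^ 2 * ‖z c n‖ * ‖A c n‖ := by gcongr
        _ = M' * ‖A c n'‖ ^ 2 * (‖z c n‖ * ‖A c n‖) := by ring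
        _ ≤ M' * ‖A c n'‖ ^ 2 * (1 / 50) := by gcongr
        _ = _ := by ring
    have h11 : 0 < ‖A c n'‖ ^ 2 * M' := by positivity
    nlinarith

theorem Sm.unique {n' : ℕ} (h : Sm c n M) (h' : Sm c n' M') : n = n' :=
  le_antisymm (Nat.not_lt.1 (Sm.not_lt h' h)) (Nat.not_lt.1 (Sm.not_lt h h'))

end Pool.Agent.H47.MB.Gen
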