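import Pool.Agent.H98.MB.Hole
import Pool.Agent.H47.MB.Gen

set_option linter.style.longLine false

/-! All superattracting parameters: explicit discs in their hyperbolic components, which are
pairwise disjoint, and the resulting estimate for almost every parameter. -/

namespace Pool.Agent.H47.MB.Gen

open Finset Metric MeasureTheory
open scoped ENNReal
open Pool.Agent.H51.IR Pool.Agent.H98.MB

/-- a superattracting parameter of exact period `n` (with simple zero of `crit · n`) -/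
structure IsC (a : ℂ) (n : ℕ) : Prop where
  one_le : 1 ≤ n
  zero : crit a n = 0
  ne : ∀ j ∈ Ico 1 n, crit a j ≠ 0
  dp : Dp a n ≠ 0

/-- the distortion constant of a centre -/
noncomputable def Mc (a : ℂ) (n : ℕ) : ℝ :=
  max 1 (max (T a n * (∑ j ∈ Ico 1 n, ‖A a j‖ * T a j / ‖crit a j‖) / ‖Dp a n‖ ^ 2)
    ((∑ j ∈ Ico 1 n, ‖A a j‖ / ‖crit a j‖) / ‖A a n‖ ^ 2))

/-- the inverse of the size of a centre -/
noncomputable def sz (a : ℂ) (n : ℕ) : ℝ := ‖A a n‖ * ‖Dp a n‖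

variable {a b c c' : ℂ} {n : ℕ}

theorem one_le_Mc (a : ℂ) (n : ℕ) : 1 ≤ Mc a n := le_max_left _ _

theorem Mc_pos (a : ℂ) (n : ℕ) : 0 < Mc a n := lt_of_lt_of_le one_pos (one_le_Mc a n)

section

variable (h : IsC a n)

include h

theorem IsC.A_pos : 0 < ‖A a n‖ := norm_pos_iff.2 (A_ne_zero h.ne)

theorem IsC.D_pos : 0 < ‖Dp a n‖ := norm_pos_iff.2 h.dp

theorem IsC.sz_pos : 0 < sz a n := mul_pos h.A_pos h.D_pos

theorem IsC.w_pos : 0 < Mc a n * sz a n := mul_pos (Mc_pos a n) h.sz_pos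

theorem IsC.M1 : T a n * (∑ j ∈ Ico 1 n, ‖A a j‖ * T a j / ‖crit a j‖) ≤ Mc a n * ‖Dp a n‖ ^ 2 := by
  have h1 : T a n * (∑ j ∈ Ico 1 n, ‖A a j‖ * T a j / ‖crit a j‖) / ‖Dp a n‖ ^ 2 ≤ Mc a n :=
    (le_max_left _ _).trans (le_max_right _ _)
  have := h.D_pos
  rwa [div_le_iff₀ (by positivity)] at h1

theorem IsC.M2 : ∑ j ∈ Ico 1 n, ‖A a j‖ / ‖crit a j‖ ≤ Mc a n * ‖A a n‖ ^ 2 := by
  have h1 : (∑ j ∈ Ico 1 n, ‖A a j‖ / ‖crit a j‖) / ‖A a n‖ ^ 2 ≤ Mc a n :=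
    (le_max_right _ _).trans (le_max_right _ _)
  have := h.A_pos
  rwa [div_le_iff₀ (by positivity)] at h1

theorem IsC.hB : 0.02 / (Mc a n * sz a n) * ∑ j ∈ Ico 1 n, ‖A a j‖ * T a j / ‖crit a j‖
      ≤ 1 / 50 * (‖Dp a n‖ / (‖A a n‖ * T a n)) := by
  have hA := h.A_pos
  have hD := h.D_pos
  have hw := h.w_pos
  have hM := Mc_pos a n
  have hT : 0 < T a n := lt_of_lt_of_le one_pos (one_le_T a h.one_le)
  have h5 := h.M1
  rw [div_mul_eq_mul_div, ← mul_div_assoc, div_le_div_iff₀ hw (by positivity)]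
  calc _ = 0.02 * ‖A a n‖ * (T a n * ∑ j ∈ Ico 1 n, ‖A a j‖ * T a j / ‖crit a j‖) := by ring
    _ ≤ 0.02 * ‖A a n‖ * (Mc a n * ‖Dp a n‖ ^ 2) := by gcongr
    _ = _ := by
      unfold sz
      ring

theorem IsC.pert (hc : ‖c' - a‖ * (Mc a n * sz a n) ≤ 0.02) :
    (∀ j ∈ Ico 1 n, crit c' j ≠ 0 ∧ ‖crit c' j - crit a j‖ ≤ 0.021 * ‖crit a j‖) ∧
    (∀ j, j ≤ n → ‖A c' j - A a j‖ ≤ 0.0215 * ‖A a j‖) ∧
    ‖Dp c' n - Dp a n‖ ≤ 0.0215 * ‖Dp a n‖ := by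
  have hr : ‖c' - a‖ ≤ 0.02 / (Mc a n * sz a n) := by
    rw [le_div_iff₀ h.w_pos]
    exact hc
  exact Pool.Agent.H98.MB.pert h.one_le h.ne hr h.hB

theorem IsC.lin (h1 : ‖c - a‖ * (Mc a n * sz a n) ≤ 0.02) :
    ‖crit c n - Dp a n * (c - a)‖ ≤ 0.0215 * ‖Dp a n‖ * ‖c - a‖ := by
  have h2 := crit_lin (c := a) (n := n) (r := 0.02 / (Mc a n * sz a n)) (D := Dp a n)
    (η := 0.0215 * ‖Dp a n‖) (x := c) (y := a) ?_ ?_ ?_
  · rwa [h.zero, sub_zero] at h2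
  · intro c' hc'
    rw [mem_closedBall, dist_eq_norm] at hc'
    exact (Pool.Agent.H98.MB.pert h.one_le h.ne hc' h.hB).2.2
  · rw [mem_closedBall, dist_eq_norm, le_div_iff₀ h.w_pos]
    exact h1
  · exact mem_closedBall_self (div_pos (by norm_num) h.w_pos).le

end

theorem ratio_le {a1 a2 z1 z2 : ℝ} (ha : 0 ≤ a1) (hz : 0 < z1) (h1 : a2 ≤ 1.0215 * a1)
    (h2 : 0.979 * z1 ≤ z2) : a2 / z2 ≤ 1.0435 * (a1 / z1) := by
  have hz2 : 0 < z2 := by linarith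
  rw [← mul_div_assoc, div_le_div_iff₀ hz2 hz]
  calc a2 * z1 ≤ 1.0215 * a1 * z1 := by gcongr
    _ ≤ 1.0435 * a1 * (0.979 * z1) := by
      have : 0 ≤ a1 * z1 := by positivity
      nlinarith
    _ ≤ 1.0435 * a1 * z2 := by gcongr

theorem IsC.sum_le (h : IsC a n) (hc : ‖c' - a‖ * (Mc a n * sz a n) ≤ 0.02) :
    ∑ j ∈ Ico 1 n, ‖A c' j‖ / ‖crit c' j‖ ≤ 1.1 * Mc a n * ‖A c' n‖ ^ 2 := by
  obtain ⟨p1, p2, -⟩ := h.pert hc
  have h1 : ∑ j ∈ Ico 1 n, ‖A c' j‖ / ‖crit c' j‖ ≤ 1.0435 * ∑ j ∈ Ico 1 n, ‖A a j‖ / ‖crit a j‖ := by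
    rw [mul_sum]
    refine Finset.sum_le_sum fun j hj => ?_
    refine ratio_le (norm_nonneg _) (norm_pos_iff.2 (h.ne j hj)) ?_ ?_
    · have h5 := p2 j (Finset.mem_Ico.1 hj).2.le
      have h6 := norm_le_norm_add_norm_sub' (A c' j) (A a j)
      linarith
    · have h5 := (p1 j hj).2
      have h6 := norm_le_norm_add_norm_sub (crit c' j) (crit a j)
      linarith
  have h2 := h.M2
  have h3 : 0.9785 * ‖A a n‖ ≤ ‖A c' n‖ := by
    have h5 := p2 n le_rfl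
    have h6 := norm_le_norm_add_norm_sub (A c' n) (A a n)
    linarith
  have hM := Mc_pos a n
  have hA := h.A_pos
  calc _ ≤ 1.0435 * (Mc a n * ‖A a n‖ ^ 2) := by linarith
    _ ≤ 1.1 * Mc a n * (0.9785 * ‖A a n‖) ^ 2 := by
      have : 0 < Mc a n * ‖A a n‖ ^ 2 := by positivity
      nlinarith
    _ ≤ 1.1 * Mc a n * ‖A c' n‖ ^ 2 := by gcongr

/-- the disc of a centre -/
noncomputable def disc (a : ℂ) (n : ℕ) : Set ℂ := closedBall a (0.01 / (Mc a n * sz a n))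

theorem IsC.mem_disc (h : IsC a n) : c' ∈ disc a n ↔ ‖c' - a‖ * (Mc a n * sz a n) ≤ 0.01 := by
  rw [disc, mem_closedBall, dist_eq_norm, le_div_iff₀ h.w_pos]

theorem IsC.sm (h : IsC a n) (hc : c' ∈ disc a n) : Sm c' n (1.1 * Mc a n) := by
  rw [h.mem_disc] at hc
  have hc2 : ‖c' - a‖ * (Mc a n * sz a n) ≤ 0.02 := hc.trans (by norm_num)
  obtain ⟨p1, p2, -⟩ := h.pert hc2
  have hM := one_le_Mc a n
  have hl := h.lin hc2
  have h4 : ‖A c' n‖ ≤ 1.0215 * ‖A a n‖ := by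
    have h5 := p2 n le_rfl
    have h6 := norm_le_norm_add_norm_sub' (A c' n) (A a n)
    linarith
  have h6 : ‖crit c' n‖ ≤ 1.0215 * (‖Dp a n‖ * ‖c' - a‖) := by
    have h7 := norm_le_norm_add_norm_sub' (crit c' n) (Dp a n * (c' - a))
    rw [norm_mul] at h7
    linarith
  have hM0 := Mc_pos a n
  refine ⟨by linarith, h.one_le, fun j hj hjn => (p1 j (Finset.mem_Ico.2 ⟨hj, hjn⟩)).1,
    h.sum_le hc2, ?_⟩
  change ‖crit c' n‖ * (1.1 * Mc a n * ‖A c' n‖) ≤ 1 / 50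
  calc ‖crit c' n‖ * (1.1 * Mc a n * ‖A c' n‖)
      ≤ 1.0215 * (‖Dp a n‖ * ‖c' - a‖) * (1.1 * Mc a n * (1.0215 * ‖A a n‖)) := by gcongr
    _ = 1.0215 * 1.0215 * 1.1 * (‖c' - a‖ * (Mc a n * sz a n)) := by
      unfold sz
      ring
    _ ≤ 1.0215 * 1.0215 * 1.1 * 0.01 := by gcongr
    _ ≤ 1 / 50 := by norm_num

theorem IsC.eq_of_le (h1 : IsC a n) (h2 : IsC b n) (hle : Mc a n * sz a n ≤ Mc b n * sz b n)
    (hc1 : c' ∈ disc a n) (hc2 : c' ∈ disc b n) : a = b := by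
  rw [h1.mem_disc] at hc1
  rw [h2.mem_disc] at hc2
  have hw := h1.w_pos
  have g1 : ‖b - c'‖ * (Mc a n * sz a n) ≤ 0.01 := by
    have := mul_le_mul_of_nonneg_left hle (norm_nonneg (c' - b))
    rw [norm_sub_rev]
    linarith
  have g2 : ‖b - a‖ * (Mc a n * sz a n) ≤ 0.02 := by
    have e1 : ‖b - a‖ ≤ ‖b - c'‖ + ‖c' - a‖ := norm_sub_le_norm_sub_add_norm_sub b c' a
    have := mul_le_mul_of_nonneg_right e1 hw.le
    linarith
  have hl := h1.lin g2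
  rw [h2.zero, zero_sub, norm_neg, norm_mul] at hl
  have hD := h1.D_pos
  have h3 : ‖b - a‖ ≤ 0 := by
    by_contra hcon
    push Not at hcon
    have : 0 < ‖Dp a n‖ * ‖b - a‖ := by positivity
    nlinarith
  exact (sub_eq_zero.1 (norm_le_zero_iff.1 h3)).symm

theorem IsC.eq {n' : ℕ} (h1 : IsC a n) (h2 : IsC b n')
    (hc1 : c' ∈ disc a n) (hc2 : c' ∈ disc b n') : a = b ∧ n = n' := by
  have hn : n = n' := (h1.sm hc1).unique (h2.sm hc2)
  subst hn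
  refine ⟨?_, rfl⟩
  rcases le_total (Mc a n * sz a n) (Mc b n * sz b n) with h | h
  · exact h1.eq_of_le h2 h hc1 hc2
  · exact (h2.eq_of_le h1 h hc2 hc1).symm

theorem Sm.norm_le_two {M : ℝ} (h : Sm c n M) : ‖c‖ ≤ 2 := by
  by_contra hc
  push Not at hc
  have hz : ∀ j, 1 ≤ j → ‖c‖ ≤ ‖crit c j‖ := by
    intro j hj
    induction j, hj using Nat.le_induction with
    | base => rw [crit_one]
    | succ j hj ih =>
      rw [crit_succ]
      have h1 : ‖crit c j ^ 2‖ ≤ ‖crit c j ^ 2 + c‖ + ‖c‖ := by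
        have := norm_sub_le (crit c j ^ 2 + c) c
        rwa [add_sub_cancel_right] at this
      rw [norm_pow] at h1
      nlinarith
  have hA : 1 ≤ ‖A c n‖ := by
    unfold A
    rw [norm_prod]
    refine Finset.prod_induction _ (fun x : ℝ => 1 ≤ x) (fun a b ha hb => ?_) le_rfl ?_
    · nlinarith
    · intro i hi
      have := hz i (Finset.mem_Ico.1 hi).1
      rw [norm_mul]
      have n2 : ‖(2 : ℂ)‖ = 2 := by simp
      rw [n2]
      linarith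
  have h1 : ‖crit c n‖ * (M * ‖A c n‖) ≤ 1 / 50 := h.small
  have h2 := hz n h.one_le
  have h3 := h.one_le_M
  have h4 : 1 ≤ M * ‖A c n‖ := by nlinarith
  nlinarith

/-- the centres -/
def cs : Set (ℂ × ℕ) := {p | IsC p.1 p.2}

theorem disc_disj (p q : cs) (hpq : p ≠ q) : Disjoint (disc p.1.1 p.1.2) (disc q.1.1 q.1.2) := by
  rw [Set.disjoint_left]
  intro x hx hy
  obtain ⟨h1, h2⟩ := IsC.eq p.2 q.2 hx hy
  exact hpq (Subtype.ext (Prod.ext h1 h2))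

theorem cs_countable : Countable cs := by
  refine (Set.countable_coe_iff).2 ?_
  refine Set.PairwiseDisjoint.countable_of_nonempty_interior (s := fun p : ℂ × ℕ => disc p.1 p.2) ?_ ?_
  · intro p hp q hq hpq
    exact disc_disj ⟨p, hp⟩ ⟨q, hq⟩ fun h => hpq (congrArg Subtype.val h)
  · intro p hp
    have hs : 0 < 0.01 / (Mc p.1 p.2 * sz p.1 p.2) := div_pos (by norm_num) (IsC.w_pos hp)
    unfold disc
    exact ⟨p.1, ball_subset_interior_closedBall (mem_ball_self hs)⟩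

theorem tsum_disc_le : ∑' p : cs, volume (disc p.1.1 p.1.2) ≤ volume (closedBall (0 : ℂ) 2) := by
  refine le_trans (tsum_meas_le_meas_iUnion_of_disjoint volume
    (fun p => (isClosed_closedBall).measurableSet) (fun p q hpq => disc_disj p q hpq)) ?_
  refine measure_mono ?_
  rw [Set.iUnion_subset_iff]
  intro p x hx
  rw [mem_closedBall, dist_zero_right]
  exact (IsC.sm p.2 hx).norm_le_two

theorem lintegral_scale {W : ℝ → ℝ≥0∞} (hW : Measurable W) {s : ℝ} (hs : 0 < s) (c1 : ℂ) :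
    ∫⁻ c, W (s * ‖c - c1‖) = ENNReal.ofReal ((s ^ 2)⁻¹) * ∫⁻ y : ℂ, W ‖y‖ := by
  have h1 : ∫⁻ c, W (s * ‖c - c1‖) = ∫⁻ c : ℂ, W (s * ‖c‖) :=
    lintegral_sub_right_eq_self (fun c => W (s * ‖c‖)) c1
  have h2 : (fun c : ℂ => W (s * ‖c‖)) = fun c => W ‖s • c‖ := by
    funext c
    rw [norm_smul, Real.norm_of_nonneg hs.le]
  have hg : Measurable fun y : ℂ => W ‖y‖ := hW.comp measurable_norm
  rw [h1, h2, ← lintegral_map (f := fun y : ℂ => W ‖y‖) hg (measurable_const_smul s),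
    Measure.map_addHaar_smul volume hs.ne', lintegral_smul_measure]
  simp only [Complex.finrank_real_complex, smul_eq_mul]
  congr 2
  rw [abs_of_pos (by positivity)]

/-- the sum of the squares of the sizes of all centres -/
theorem tsum_size_le : ∑' p : cs, ENNReal.ofReal (((Mc p.1.1 p.1.2 * sz p.1.1 p.1.2) ^ 2)⁻¹) ≤ 40000 := by
  have h1 := tsum_disc_le
  have h0 : ∀ p : cs, volume (disc p.1.1 p.1.2) =
      ENNReal.ofReal ((0.01 / (Mc p.1.1 p.1.2 * sz p.1.1 p.1.2)) ^ 2) * (NNReal.pi : ℝ≥0∞) := by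
    intro p
    have hs := IsC.w_pos p.2
    rw [disc, Complex.volume_closedBall, ENNReal.ofReal_pow (by positivity)]
  simp only [h0] at h1
  rw [ENNReal.tsum_mul_right, Complex.volume_closedBall] at h1
  have hpi : (NNReal.pi : ℝ≥0∞) ≠ 0 := by
    rw [Ne, ENNReal.coe_eq_zero]
    exact fun h => Real.pi_pos.ne' (congrArg NNReal.toReal h)
  have h2 : ∑' p : cs, ENNReal.ofReal ((0.01 / (Mc p.1.1 p.1.2 * sz p.1.1 p.1.2)) ^ 2) ≤
      ENNReal.ofReal 2 ^ 2 := (ENNReal.mul_le_mul_iff_left hpi ENNReal.coe_ne_top).1 h1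
  have h3 : ∀ p : cs, ENNReal.ofReal (((Mc p.1.1 p.1.2 * sz p.1.1 p.1.2) ^ 2)⁻¹) =
      ENNReal.ofReal 10000 * ENNReal.ofReal ((0.01 / (Mc p.1.1 p.1.2 * sz p.1.1 p.1.2)) ^ 2) := by
    intro p
    have hs := IsC.w_pos p.2
    rw [← ENNReal.ofReal_mul (by norm_num)]
    congr 1
    field_simp
    norm_num
  simp only [h3]
  rw [ENNReal.tsum_mul_left]
  refine (mul_le_mul_right h2 _).trans ?_
  rw [← ENNReal.ofReal_pow (by norm_num), ← ENNReal.ofReal_mul (by norm_num)]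
  refine ENNReal.ofReal_le_of_le_toReal ?_
  norm_num

/-- the weighted number of centres near a parameter -/
noncomputable def term (W : ℝ → ℝ≥0∞) (p : ℂ × ℕ) (c : ℂ) : ℝ≥0∞ :=
  ENNReal.ofReal ((Mc p.1 p.2 ^ 2)⁻¹) * W (sz p.1 p.2 * ‖c - p.1‖)

theorem measurable_term {W : ℝ → ℝ≥0∞} (hW : Measurable W) (p : ℂ × ℕ) : Measurable (term W p) :=
  (hW.comp ((measurable_id.sub_const _).norm.const_mul _)).const_mul _

theorem lintegral_term {W : ℝ → ℝ≥0∞} (hW : Measurable W) (p : ℂ × ℕ) (hp : IsC p.1 p.2) :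
    ∫⁻ c, term W p c = ENNReal.ofReal (((Mc p.1 p.2 * sz p.1 p.2) ^ 2)⁻¹) * ∫⁻ y : ℂ, W ‖y‖ := by
  have hs := hp.sz_pos
  have hM := Mc_pos p.1 p.2
  have hm : Measurable fun c : ℂ => W (sz p.1 p.2 * ‖c - p.1‖) :=
    hW.comp ((measurable_id.sub_const _).norm.const_mul _)
  have h1 : ∫⁻ c, term W p c = ENNReal.ofReal ((Mc p.1 p.2 ^ 2)⁻¹) *
      ∫⁻ c : ℂ, W (sz p.1 p.2 * ‖c - p.1‖) := lintegral_const_mul _ hm
  rw [h1, lintegral_scale hW hs, ← mul_assoc, ← ENNReal.ofReal_mul (by positivity), ← mul_inv,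
    ← mul_pow]

theorem lintegral_le {W : ℝ → ℝ≥0∞} (hW : Measurable W) :
    ∫⁻ c : ℂ, ∑' p : cs, term W p c ≤ 40000 * ∫⁻ y : ℂ, W ‖y‖ := by
  have hcount := cs_countable
  have h1 : ∫⁻ c : ℂ, ∑' p : cs, term W p c = ∑' p : cs, ∫⁻ c : ℂ, term W p c :=
    lintegral_tsum (f := fun (p : cs) (c : ℂ) => term W p.1 c)
      fun p => (measurable_term hW p.1).aemeasurable
  have h2 : ∑' p : cs, ∫⁻ c : ℂ, term W p c = ∑' p : cs,
      ENNReal.ofReal (((Mc p.1.1 p.1.2 * sz p.1.1 p.1.2) ^ 2)⁻¹) * ∫⁻ y : ℂ, W ‖y‖ :=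
    tsum_congr fun p => lintegral_term hW p.1 p.2
  rw [h1, h2, ENNReal.tsum_mul_right]
  exact mul_le_mul_left tsum_size_le _

theorem ae_lt {W : ℝ → ℝ≥0∞} (hW : Measurable W) (hI : ∫⁻ y : ℂ, W ‖y‖ < ∞) :
    ∀ᵐ c : ℂ, ∑' p : cs, term W p c < ∞ := by
  have hcount := cs_countable
  exact ae_lt_top (Measurable.tsum fun p => measurable_term hW p.1)
    (lt_of_le_of_lt (lintegral_le hW) (ENNReal.mul_lt_top (by norm_num) hI)).ne

theorem ae_finite : ∀ᵐ c : ℂ, ∀ K : ℝ,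
    {p : ℂ × ℕ | IsC p.1 p.2 ∧ Mc p.1 p.2 ≤ K ∧ sz p.1 p.2 * ‖c - p.1‖ ≤ K}.Finite := by
  have key : ∀ K : ℕ, ∀ᵐ c : ℂ,
      {p : ℂ × ℕ | IsC p.1 p.2 ∧ Mc p.1 p.2 ≤ K ∧ sz p.1 p.2 * ‖c - p.1‖ ≤ K}.Finite := by
    intro K
    set W : ℝ → ℝ≥0∞ := (Set.Iic (K : ℝ)).indicator 1 with hWdef
    have hW : Measurable W := measurable_one.indicator measurableSet_Iic
    have hI : ∫⁻ y : ℂ, W ‖y‖ < ∞ := by
      have h1 : (fun y : ℂ => W ‖y‖) = (closedBall (0 : ℂ) K).indicator 1 := by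
        funext y
        by_cases h : ‖y‖ ≤ (K : ℝ)
        · rw [hWdef, Set.indicator_of_mem (Set.mem_Iic.2 h),
            Set.indicator_of_mem (mem_closedBall_zero_iff.2 h)]
          rfl
        · rw [hWdef, Set.indicator_of_notMem (fun h' => h (Set.mem_Iic.1 h')),
            Set.indicator_of_notMem (fun h' => h (mem_closedBall_zero_iff.1 h'))]
      rw [h1, lintegral_indicator_one isClosed_closedBall.measurableSet]
      exact (isCompact_closedBall _ _).measure_lt_top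
    filter_upwards [ae_lt hW hI] with c hc
    have hpos : ENNReal.ofReal (((K : ℝ) ^ 2 + 1)⁻¹) ≠ 0 := by
      rw [Ne, ENNReal.ofReal_eq_zero, not_le]
      positivity
    have h3 : {p : cs | ENNReal.ofReal (((K : ℝ) ^ 2 + 1)⁻¹) ≤ term W p c}.Finite :=
      ENNReal.finite_const_le_of_tsum_ne_top hc.ne hpos
    refine (h3.image Subtype.val).subset ?_
    rintro p ⟨h4, h5, h6⟩
    refine ⟨⟨p, h4⟩, ?_, rfl⟩
    show ENNReal.ofReal (((K : ℝ) ^ 2 + 1)⁻¹) ≤ term W p c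
    unfold term
    rw [hWdef, Set.indicator_of_mem (Set.mem_Iic.2 h6), Pi.one_apply, mul_one]
    refine ENNReal.ofReal_le_ofReal ?_
    have hM := Mc_pos p.1 p.2
    refine inv_anti₀ (by positivity) ?_
    have : Mc p.1 p.2 ^ 2 ≤ (K : ℝ) ^ 2 := by gcongr
    linarith
  rw [← ae_all_iff] at key
  filter_upwards [key] with c hc K
  obtain ⟨m, hm⟩ := exists_nat_ge K
  exact (hc m).subset fun p hp => ⟨hp.1, hp.2.1.trans hm, hp.2.2.trans hm⟩

end Pool.Agent.H47.MB.Gen
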