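import Pool.Agent.H47.MB.BC
import Pool.Agent.H47.MB.GenBC

set_option linter.style.longLine false

/-! A good close return has a centre with distortion constant one nearby. -/

namespace Pool.Agent.H47.MB.Gen

open Finset Metric
open Pool.Agent.H51.IR Pool.Agent.H98.MB Pool.Agent.H47.MB

variable {c : ℂ} {n : ℕ}

theorem exists_centre (h : GoodTime c n) : ∃ a, IsC a n ∧ Mc a n = 1 ∧
    ‖a - c‖ * ‖Dp c n‖ ≤ 1.022 * ‖crit c n‖ := by
  obtain ⟨a, h0, h1⟩ := h.exists_zero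
  have hA := h.A_pos
  have hD := h.D_pos
  have hK := one_le_Kn c n
  have hn := h.one_le
  have hn1 := (h.near_zero h1).trans (show 1.022 * Kn c n ≤ 2 * Kn c n by linarith)
  have hr : ‖a - c‖ ≤ 2 * Kn c n / (‖A c n‖ * ‖Dp c n‖) := by
    rw [le_div_iff₀ (by positivity)]
    exact hn1
  obtain ⟨p1, p2, p3⟩ := Pool.Agent.H98.MB.pert h.one_le h.2.1 hr h.hB
  have p4 := pert_sum h.one_le h.2.1 hr h.hB h.2.2.2.2.2
  have hne : ∀ j ∈ Ico 1 n, crit a j ≠ 0 := fun j hj => (p1 j hj).1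
  have hAa : ∀ j, j ≤ n → 0.9785 * ‖A c j‖ ≤ ‖A a j‖ ∧ ‖A a j‖ ≤ 1.0215 * ‖A c j‖ := by
    intro j hj
    have h5 := p2 j hj
    have h6 := norm_le_norm_add_norm_sub (A a j) (A c j)
    have h7 := norm_le_norm_add_norm_sub' (A a j) (A c j)
    constructor <;> linarith
  have hDa : 0.9785 * ‖Dp c n‖ ≤ ‖Dp a n‖ := by
    have h6 := norm_le_norm_add_norm_sub (Dp a n) (Dp c n)
    linarith
  have hDpos : 0 < ‖Dp a n‖ := by linarith
  have hApos : 0 < ‖A a n‖ := by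
    have := (hAa n le_rfl).1
    linarith
  have hcA : ∀ j, j ≤ n → 0 < ‖A c j‖ := fun j hj =>
    norm_pos_iff.2 (A_ne_zero fun i hi => h.2.1 i (Finset.Ico_subset_Ico_right hj hi))
  have hT : ∀ j, j ≤ n → T a j ≤ 1.022 * T c j := by
    intro j hj
    unfold T
    rw [mul_sum]
    refine Finset.sum_le_sum fun i hi => ?_
    rw [Finset.mem_Icc] at hi
    have hpos := hcA i (hi.2.trans hj)
    have h2 := (hAa i (hi.2.trans hj)).1
    have h3 : 0 < ‖A a i‖ := by linarith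
    rw [← div_eq_mul_inv, inv_eq_one_div, div_le_div_iff₀ h3 hpos]
    linarith
  have hsum : ∑ j ∈ Ico 1 n, ‖A a j‖ * T a j / ‖crit a j‖ ≤
      1.022 * 1.0435 * ∑ j ∈ Ico 1 n, ‖A c j‖ * T c j / ‖crit c j‖ := by
    rw [mul_sum]
    refine Finset.sum_le_sum fun j hj => ?_
    have hj' := Finset.mem_Ico.1 hj
    have hr := ratio_le (a1 := ‖A c j‖) (a2 := ‖A a j‖) (z1 := ‖crit c j‖) (z2 := ‖crit a j‖)
      (norm_nonneg _) (norm_pos_iff.2 (h.2.1 j hj)) (hAa j hj'.2.le).2 (by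
        have h5 := (p1 j hj).2
        have h6 := norm_le_norm_add_norm_sub (crit a j) (crit c j)
        linarith)
    have hTj := hT j hj'.2.le
    have hTa := T_nonneg a j
    have hTc := T_nonneg c j
    calc ‖A a j‖ * T a j / ‖crit a j‖ = T a j * (‖A a j‖ / ‖crit a j‖) := by ring
      _ ≤ (1.022 * T c j) * (1.0435 * (‖A c j‖ / ‖crit c j‖)) := by gcongr
      _ = _ := by ring
  have hTn := hT n le_rfl
  have hTc := T_nonneg c n
  have hTa := T_nonneg a n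
  have hS0 : 0 ≤ ∑ j ∈ Ico 1 n, ‖A a j‖ * T a j / ‖crit a j‖ := Finset.sum_nonneg fun i _ => by
    have := T_nonneg a i
    positivity
  have hS1 : 0 ≤ ∑ j ∈ Ico 1 n, ‖A c j‖ * T c j / ‖crit c j‖ := Finset.sum_nonneg fun i _ => by
    have := T_nonneg c i
    positivity
  have hc5 := h.2.2.2.2.1
  have hM1 : T a n * (∑ j ∈ Ico 1 n, ‖A a j‖ * T a j / ‖crit a j‖) ≤ ‖Dp a n‖ ^ 2 := by
    have e1 : T a n * (∑ j ∈ Ico 1 n, ‖A a j‖ * T a j / ‖crit a j‖) ≤ (1.022 * T c n) *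
        (1.022 * 1.0435 * ∑ j ∈ Ico 1 n, ‖A c j‖ * T c j / ‖crit c j‖) := by gcongr
    have e2 : T c n * ∑ j ∈ Ico 1 n, ‖A c j‖ * T c j / ‖crit c j‖ ≤ ‖Dp c n‖ ^ 2 / 100 := by
      have : 0 ≤ T c n * ∑ j ∈ Ico 1 n, ‖A c j‖ * T c j / ‖crit c j‖ := by positivity
      nlinarith
    have e3 : (0.9785 * ‖Dp c n‖) ^ 2 ≤ ‖Dp a n‖ ^ 2 := by gcongr
    nlinarith
  refine ⟨a, ⟨hn, h0, hne, norm_pos_iff.1 hDpos⟩, ?_, h1⟩
  refine max_eq_left (max_le ?_ ?_)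
  · rw [div_le_one (by positivity)]
    exact hM1
  · rw [div_le_one (by positivity)]
    have : 0 ≤ ‖A a n‖ ^ 2 := by positivity
    linarith

end Pool.Agent.H47.MB.Gen
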