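import Pool.Agent.H47.MB.RowU

set_option linter.style.longLine false

/-! MB2, row S1: one step of the construction for real parameters (from rows P, Q, R). -/

namespace Pool.Agent.H47.MB

open Finset
open Pool.Agent.H51.IR Pool.Agent.H98.MB

/-- the real quadratic map -/
def rq (c x : ℝ) : ℝ := x ^ 2 + c

theorem quad_ofReal (c x : ℝ) : quad (c : ℂ) (x : ℂ) = ((rq c x : ℝ) : ℂ) := by
  simp [quad, rq]

theorem iter_ofReal (c x : ℝ) (n : ℕ) : (quad (c : ℂ))^[n] (x : ℂ) = (((rq c)^[n] x : ℝ) : ℂ) := by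
  induction n with
  | zero => rfl
  | succ n ih => rw [Function.iterate_succ_apply', Function.iterate_succ_apply', ih, quad_ofReal]

theorem crit_ofReal (c : ℝ) (n : ℕ) : crit (c : ℂ) n = (((rq c)^[n] 0 : ℝ) : ℂ) := by
  have := iter_ofReal c 0 n
  rw [Complex.ofReal_zero] at this
  exact this

theorem A_ofReal (c : ℝ) (n : ℕ) : ∃ a : ℝ, A (c : ℂ) n = (a : ℂ) := by
  refine ⟨∏ i ∈ Ico 1 n, 2 * (rq c)^[i] 0, ?_⟩
  unfold A
  push_cast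
  exact Finset.prod_congr rfl fun i _ => by rw [crit_ofReal]

theorem Dp_ofReal (c : ℝ) (n : ℕ) : ∃ d : ℝ, Dp (c : ℂ) n = (d : ℂ) := by
  induction n with
  | zero => exact ⟨0, by simp [Dp]⟩
  | succ n ih =>
    obtain ⟨d, hd⟩ := ih
    refine ⟨2 * (rq c)^[n] 0 * d + 1, ?_⟩
    simp only [Dp, hd, crit_ofReal]
    push_cast
    ring

theorem continuous_rq_iter (n : ℕ) : Continuous fun p : ℝ × ℝ => (rq p.1)^[n] p.2 := by
  induction n with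
  | zero => exact continuous_snd
  | succ n ih =>
    simp only [Function.iterate_succ_apply']
    exact (ih.pow 2).add continuous_fst

theorem crit_add (c : ℂ) (m n : ℕ) : crit c (m + n) = (quad c)^[n] (crit c m) := by
  unfold crit
  rw [add_comm, Function.iterate_add_apply]

/-- row P -/
def StatP : Prop := ∀ (c : ℂ) (n : ℕ), Centre c n → ∀ c' x : ℂ,
  ‖A c n‖ * ‖Dp c n‖ * ‖c' - c‖ ≤ 3 → ‖A c n‖ * ‖x‖ ≤ 5 → Near c n c' x

/-- row Q -/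
def StatQ : Prop := ∀ g : ℝ → ℝ → ℝ,
  ContinuousOn (fun p : ℝ × ℝ => g p.1 p.2) (Set.Icc (-3) 3 ×ˢ Set.Icc (-5) 5) →
  (∀ t ∈ Set.Icc (-3 : ℝ) 3, ∀ w ∈ Set.Icc (-5 : ℝ) 5, |g t w - (t + w ^ 2)| ≤ 0.005 * (|t| + w ^ 2)) →
  ∀ q : ℕ, 3 ≤ q → ∃ t ∈ Set.Icc (-2.2 : ℝ) (-1.65), ∃ x : ℕ → ℝ, x 0 = 0 ∧
    (∀ j < q, x (j + 1) = g t (x j)) ∧ x q = 0 ∧
    (∀ j, 1 ≤ j → j < q → 1.25 ≤ |x j| ∧ |x j| ≤ 2.3) ∧ 1.6 ≤ |x 1|

/-- row R -/
def StatR : Prop := ∀ (c : ℂ) (n : ℕ) (c' : ℂ) (q : ℕ), Centre c n →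
  ‖A c n‖ * ‖Dp c n‖ * ‖c' - c‖ ≤ 2.2 → 4 ≤ q →
  3.6e5 * (T c n ^ 2 * ‖A c n‖ ^ 2) ≤ 2 ^ (q - 1) * ‖Dp c n‖ ^ 2 →
  (∀ m < q, Near c n c' (crit c' (m * n))) →
  (∀ m, 1 ≤ m → m < q →
    1.25 ≤ ‖A c n‖ * ‖crit c' (m * n)‖ ∧ ‖A c n‖ * ‖crit c' (m * n)‖ ≤ 2.3) →
  1.6 ≤ ‖A c n‖ * ‖crit c' (1 * n)‖ → crit c' (q * n) = 0 →
  Centre c' (q * n) ∧ Step c n c' (q * n)

theorem rowS1 (hP : StatP) (hQ : StatQ) (hR : StatR) {c : ℝ} {n : ℕ} (hc : Centre (c : ℂ) n) :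
    ∃ (c' : ℝ) (n' : ℕ), Centre (c' : ℂ) n' ∧ Step (c : ℂ) n (c' : ℂ) n' := by
  obtain ⟨a, ha⟩ := A_ofReal c n
  obtain ⟨d, hd⟩ := Dp_ofReal c n
  have ha0 : a ≠ 0 := by
    intro h
    exact hc.A_ne le_rfl (by rw [ha, h, Complex.ofReal_zero])
  have hd0 : d ≠ 0 := by
    intro h
    exact hc.dp (by rw [hd, h, Complex.ofReal_zero])
  have hna : ‖A (c : ℂ) n‖ = |a| := by rw [ha, Complex.norm_real, Real.norm_eq_abs]
  have hnd : ‖Dp (c : ℂ) n‖ = |d| := by rw [hd, Complex.norm_real, Real.norm_eq_abs]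
  have hdist : ∀ t : ℝ, ‖A (c : ℂ) n‖ * ‖Dp (c : ℂ) n‖ * ‖((c + t / (a * d) : ℝ) : ℂ) - c‖ = |t| := by
    intro t
    have : ((c + t / (a * d) : ℝ) : ℂ) - c = ((t / (a * d) : ℝ) : ℂ) := by push_cast; ring
    rw [this, hna, hnd, Complex.norm_real, Real.norm_eq_abs, ← abs_mul, ← abs_mul]
    congr 1
    field_simp
  have hx : ∀ w : ℝ, ‖A (c : ℂ) n‖ * ‖((w / a : ℝ) : ℂ)‖ = |w| := by
    intro w
    rw [hna, Complex.norm_real, Real.norm_eq_abs, ← abs_mul]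
    congr 1
    field_simp
  set g : ℝ → ℝ → ℝ := fun t w => a * (rq (c + t / (a * d)))^[n] (w / a) with hg
  have hgc : Continuous fun p : ℝ × ℝ => g p.1 p.2 := by
    simp only [hg]
    refine continuous_const.mul ((continuous_rq_iter n).comp
      ((continuous_const.add (continuous_fst.div_const _)).prodMk (continuous_snd.div_const _)))
  have hgv : ∀ t ∈ Set.Icc (-3 : ℝ) 3, ∀ w ∈ Set.Icc (-5 : ℝ) 5,
      |g t w - (t + w ^ 2)| ≤ 0.005 * (|t| + w ^ 2) := by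
    intro t ht w hw
    have h1 := (hP c n hc ((c + t / (a * d) : ℝ) : ℂ) ((w / a : ℝ) : ℂ)
      ((hdist t).trans_le (abs_le.2 ht)) ((hx w).trans_le (abs_le.2 hw))).value
    have e1 : A (c : ℂ) n * (quad ((c + t / (a * d) : ℝ) : ℂ))^[n] ((w / a : ℝ) : ℂ) -
        (A (c : ℂ) n * Dp (c : ℂ) n * (((c + t / (a * d) : ℝ) : ℂ) - c) +
          (A (c : ℂ) n * ((w / a : ℝ) : ℂ)) ^ 2) = ((g t w - (t + w ^ 2) : ℝ) : ℂ) := by
      rw [iter_ofReal, ha, hd]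
      have hac : (a : ℂ) ≠ 0 := by exact_mod_cast ha0
      have hdc : (d : ℂ) ≠ 0 := by exact_mod_cast hd0
      simp only [hg]
      push_cast
      field_simp
      ring
    have e2 : ‖A (c : ℂ) n * Dp (c : ℂ) n * (((c + t / (a * d) : ℝ) : ℂ) - c)‖ = |t| := by
      rw [norm_mul, norm_mul]
      exact hdist t
    have e3 : ‖A (c : ℂ) n * ((w / a : ℝ) : ℂ)‖ ^ 2 = w ^ 2 := by
      rw [norm_mul, hx w, sq_abs]
    rw [e1, e2, e3, Complex.norm_real, Real.norm_eq_abs] at h1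
    exact h1
  obtain ⟨k, hk⟩ := pow_unbounded_of_one_lt
    (3.6e5 * (T (c : ℂ) n ^ 2 * ‖A (c : ℂ) n‖ ^ 2) / ‖Dp (c : ℂ) n‖ ^ 2) (one_lt_two (α := ℝ))
  have hDpos : 0 < ‖Dp (c : ℂ) n‖ ^ 2 := by
    have := norm_pos_iff.2 hc.dp
    positivity
  have hq : 3.6e5 * (T (c : ℂ) n ^ 2 * ‖A (c : ℂ) n‖ ^ 2) ≤ 2 ^ (k + 4 - 1) * ‖Dp (c : ℂ) n‖ ^ 2 := by
    rw [div_lt_iff₀ hDpos] at hk
    refine hk.le.trans (mul_le_mul_of_nonneg_right ?_ hDpos.le)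
    exact pow_le_pow_right₀ one_le_two (by omega)
  obtain ⟨t, ht, x, hx0, hxs, hxq, hxb, hx1⟩ := hQ g hgc.continuousOn hgv (k + 4) (by omega)
  have ht2 : |t| ≤ 2.2 := by
    rw [abs_le]
    constructor
    · linarith [ht.1]
    · linarith [ht.2]
  set c' : ℝ := c + t / (a * d) with hc'
  have hX : ∀ m, m ≤ k + 4 → crit (c' : ℂ) (m * n) = ((x m / a : ℝ) : ℂ) := by
    intro m
    induction m with
    | zero =>
      intro _
      rw [zero_mul, crit_zero, hx0, zero_div, Complex.ofReal_zero]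
    | succ m ih =>
      intro hm
      rw [add_one_mul, crit_add, ih (by omega), iter_ofReal, hxs m (by omega)]
      congr 1
      simp only [hg]
      rw [← hc', mul_div_cancel_left₀ _ ha0]
  have hXn : ∀ m, m ≤ k + 4 → ‖A (c : ℂ) n‖ * ‖crit (c' : ℂ) (m * n)‖ = |x m| := by
    intro m hm
    rw [hX m hm, hx]
  have hdist' : ‖A (c : ℂ) n‖ * ‖Dp (c : ℂ) n‖ * ‖(c' : ℂ) - c‖ ≤ 2.2 := by
    rw [hc', hdist]
    exact ht2
  refine ⟨c', (k + 4) * n, hR c n c' (k + 4) hc hdist' (by omega) hq ?_ ?_ ?_ ?_⟩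
  · intro m hm
    refine hP c n hc _ _ (hdist'.trans (by norm_num)) ?_
    rw [hXn m hm.le]
    rcases Nat.eq_zero_or_pos m with rfl | hm0
    · rw [hx0, abs_zero]
      norm_num
    · exact (hxb m hm0 hm).2.trans (by norm_num)
  · intro m hm1 hm2
    rw [hXn m hm2.le]
    exact hxb m hm1 hm2
  · rw [hXn 1 (by omega)]
    exact hx1
  · rw [hX (k + 4) le_rfl, hxq, zero_div, Complex.ofReal_zero]

theorem centre_zero : Centre ((0 : ℝ) : ℂ) 1 := by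
  refine ⟨le_rfl, ?_, ?_, ?_, ?_⟩
  · intro j hj
    rw [Finset.Ico_self] at hj
    exact absurd hj (Finset.notMem_empty _)
  · rw [crit_one, Complex.ofReal_zero]
  · simp [Dp, crit_zero]
  · simp [Dp, crit_zero]

end Pool.Agent.H47.MB
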