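import Pool.Agent.H47.MB.Defs
import Pool.Agent.H98.MB.Pert

set_option linter.style.longLine false

/-! MB2, row U: parameters near a centre are in the class. -/

namespace Pool.Agent.H47.MB

open Finset
open Pool.Agent.H51.IR Pool.Agent.H98.MB

variable {c c' : ℂ} {n : ℕ}

theorem B_zero (c' : ℂ) (i : ℕ) : B c' 0 i = A c' i := rfl

theorem T_pos (c : ℂ) {n : ℕ} (hn : 1 ≤ n) : 0 < T c n := lt_of_lt_of_le one_pos (one_le_T c hn)

theorem Centre.A_ne (hc : Centre c n) {j : ℕ} (hj : j ≤ n) : A c j ≠ 0 :=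
  A_ne_zero fun i hi => hc.ne i (Finset.Ico_subset_Ico_right hj hi)

theorem Near.prod_le (hc : Centre c n) {x : ℂ} (h : Near c n c' x) {j : ℕ} (hj : 1 ≤ j) (hjn : j ≤ n) :
    ‖B c' x j - A c j‖ ≤ 0.005 * ‖A c j‖ := by
  have h1 := h.prod j (Finset.mem_Icc.2 ⟨hj, hjn⟩)
  have hA : 0 < ‖A c n‖ := norm_pos_iff.2 (hc.A_ne le_rfl)
  have hT := T_pos c hc.one_le
  have hD := norm_Dp_le hc.one_le hc.ne
  have h2 : 0.005 * ‖A c j‖ * ‖Dp c n‖ ≤ 0.005 * ‖A c j‖ * (‖A c n‖ * T c n) :=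
    mul_le_mul_of_nonneg_left hD (by positivity)
  exact le_of_mul_le_mul_right (h1.trans h2) (by positivity)

theorem norm_ge_of_sub {u v : ℂ} {s : ℝ} (h : ‖u - v‖ ≤ s * ‖v‖) : (1 - s) * ‖v‖ ≤ ‖u‖ := by
  have h6 := norm_le_norm_add_norm_sub u v
  linarith

theorem norm_le_of_sub {u v : ℂ} {s : ℝ} (h : ‖u - v‖ ≤ s * ‖v‖) : ‖u‖ ≤ (1 + s) * ‖v‖ := by
  have h6 := norm_le_norm_add_norm_sub' u v
  linarith

theorem closeReturns_of_centre (hc : Centre c n) (hn : 2 ≤ n) (h : Near c n c' 0)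
    (hD : ‖Dp c' n - Dp c n‖ ≤ 0.005 * ‖Dp c n‖) (hz : ‖A c n‖ * ‖crit c' n‖ ≤ 2.5) :
    CloseReturns 4 c' n := by
  have hn1 := hc.one_le
  have hA : 0 < ‖A c n‖ := norm_pos_iff.2 (hc.A_ne le_rfl)
  have hT := T_pos c hc.one_le
  have hDp : 0 < ‖Dp c n‖ := norm_pos_iff.2 hc.dp
  have hDT := norm_Dp_le hc.one_le hc.ne
  have hAj : ∀ j, 1 ≤ j → j ≤ n → ‖A c' j - A c j‖ ≤ 0.005 * ‖A c j‖ := fun j h1 h2 => by
    have := h.prod_le hc h1 h2
    rwa [B_zero] at this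
  have hzj : ∀ j ∈ Ico 1 n, ‖crit c' j - crit c j‖ ≤ 0.005 * ‖crit c j‖ := h.orbit
  have hTj : ∀ j, j ≤ n → T c' j ≤ 1.0051 * T c n := by
    intro j hj
    have h1 : T c' j ≤ 1.0051 * T c j := by
      unfold T
      rw [mul_sum]
      refine Finset.sum_le_sum fun i hi => ?_
      rw [Finset.mem_Icc] at hi
      have hpos : 0 < ‖A c i‖ := norm_pos_iff.2 (hc.A_ne (hi.2.trans hj))
      have h2 := norm_ge_of_sub (hAj i hi.1 (hi.2.trans hj))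
      have h3 : 0 < ‖A c' i‖ := lt_of_lt_of_le (by positivity) h2
      rw [← div_eq_mul_inv, inv_eq_one_div, div_le_div_iff₀ h3 hpos]
      linarith
    refine h1.trans (mul_le_mul_of_nonneg_left ?_ (by norm_num))
    exact Finset.sum_le_sum_of_subset_of_nonneg (Finset.Icc_subset_Icc_right hj)
      fun i _ _ => by positivity
  have hS : ∀ j ∈ Ico 1 n, ‖A c' j‖ / ‖crit c' j‖ ≤ 1.011 * (‖A c j‖ / ‖crit c j‖) := by
    intro j hj
    have hj' := Finset.mem_Ico.1 hj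
    have h1 := norm_le_of_sub (hAj j hj'.1 hj'.2.le)
    have h2 := norm_ge_of_sub (hzj j hj)
    have hpos : 0 < ‖crit c j‖ := norm_pos_iff.2 (hc.ne j hj)
    have h3 : 0 < ‖crit c' j‖ := lt_of_lt_of_le (by positivity) h2
    rw [← mul_div_assoc, div_le_div_iff₀ h3 hpos]
    have h4 : 0 ≤ ‖A c j‖ := norm_nonneg _
    calc ‖A c' j‖ * ‖crit c j‖ ≤ (1 + 0.005) * ‖A c j‖ * ‖crit c j‖ := by gcongr
      _ ≤ 1.011 * ‖A c j‖ * ((1 - 0.005) * ‖crit c j‖) := by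
        have : 0 ≤ ‖A c j‖ * ‖crit c j‖ := by positivity
        nlinarith
      _ ≤ 1.011 * ‖A c j‖ * ‖crit c' j‖ := by gcongr
  set S := ∑ j ∈ Ico 1 n, ‖A c j‖ / ‖crit c j‖ with hSdef
  have hS0 : 0 ≤ S := Finset.sum_nonneg fun i _ => by positivity
  have hsmall := hc.small
  rw [← hSdef] at hsmall
  have hsum : ∑ j ∈ Ico 1 n, ‖A c' j‖ / ‖crit c' j‖ ≤ 1.011 * S := by
    rw [hSdef, mul_sum]
    exact Finset.sum_le_sum hS
  have hT1 := one_le_T c hn1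
  refine ⟨hn, ?_, ?_, ?_, ?_, ?_⟩
  · intro j hj
    have h2 := norm_ge_of_sub (hzj j hj)
    have hpos : 0 < ‖crit c j‖ := norm_pos_iff.2 (hc.ne j hj)
    exact norm_pos_iff.1 (lt_of_lt_of_le (by positivity) h2)
  · exact norm_pos_iff.1 (lt_of_lt_of_le (by positivity) (norm_ge_of_sub hD))
  · have h1 := norm_le_of_sub (hAj n hn1 le_rfl)
    calc ‖A c' n‖ * ‖crit c' n‖ ≤ (1 + 0.005) * ‖A c n‖ * ‖crit c' n‖ := by gcongr
      _ = (1 + 0.005) * (‖A c n‖ * ‖crit c' n‖) := by ring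
      _ ≤ (1 + 0.005) * 2.5 := by gcongr
      _ ≤ 4 := by norm_num
  · have h1 : ∑ j ∈ Ico 1 n, ‖A c' j‖ * T c' j / ‖crit c' j‖ ≤ 1.0051 * T c n * (1.011 * S) := by
      refine le_trans ?_ (mul_le_mul_of_nonneg_left hsum (by positivity))
      rw [mul_sum]
      refine Finset.sum_le_sum fun j hj => ?_
      rw [mul_comm ‖A c' j‖, mul_div_assoc]
      exact mul_le_mul_of_nonneg_right (hTj j (Finset.mem_Ico.1 hj).2.le) (by positivity)
    have h2 : ∑ j ∈ Ico 1 n, ‖A c' j‖ * T c' j / ‖crit c' j‖ ≥ 0 :=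
      Finset.sum_nonneg fun i _ => by
        have := T_nonneg c' i
        positivity
    have h3 : T c' n * ∑ j ∈ Ico 1 n, ‖A c' j‖ * T c' j / ‖crit c' j‖ ≤
        1.0051 * T c n * (1.0051 * T c n * (1.011 * S)) :=
      mul_le_mul (hTj n le_rfl) h1 h2 (by positivity)
    have h4 := norm_ge_of_sub hD
    have h5 : ((1 - 0.005) * ‖Dp c n‖) ^ 2 ≤ ‖Dp c' n‖ ^ 2 := by gcongr
    nlinarith
  · refine hsum.trans ?_
    have h1 := norm_ge_of_sub (hAj n hn1 le_rfl)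
    have h5 : ((1 - 0.005) * ‖A c n‖) ^ 2 ≤ ‖A c' n‖ ^ 2 := by gcongr
    have h6 : ‖Dp c n‖ ^ 2 ≤ (‖A c n‖ * T c n) ^ 2 := by gcongr
    have h7 : 10 ^ 4 * S ≤ ‖A c n‖ ^ 2 := by
      have h8 : T c n ^ 2 * (10 ^ 4 * S) ≤ T c n ^ 2 * ‖A c n‖ ^ 2 := by
        nlinarith
      exact le_of_mul_le_mul_left h8 (by positivity)
    nlinarith

end Pool.Agent.H47.MB
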